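import Pool.Agent.Y956.CP.All

/-!
# The main theorem for kernels, with base values which are not correlations of the same kernels
-/

set_option autoImplicit false

namespace Pool.Agent.Y956.CQ

open Finset
open Pool.Agent.TH112.BL (LM)
open Pool.Agent.TH575.CW (QD win theta_QD)
open Pool.Agent.Y956.CB Pool.Agent.Y956.CP

/-- comparison of given values with the correlations along the dilates by primes, at most scales -/
def ScaleQ {X : Type} (S : Sys X) {s : ℕ} (G : Fin s → X → ℝ) (E : Finset (ℕ × ℕ)) (t : ℕ × ℕ → Fin s → ℕ)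
    (φ : ℕ × ℕ → ℝ) : Prop := ∀ ε : ℝ, 0 < ε →
  ∃ C : ℝ, 0 < C ∧ ∃ i0 : ℕ, 1 ≤ i0 ∧ ∀ J : ℕ, ∀ e ∈ E,
    ∑ i ∈ Icc i0 J, (1 / (i : ℝ)) * ∑ p ∈ QD i (i + 1), Real.log p / 2 ^ i *
      |S.m (PG S.T G (fun j => p * t e j)) - φ e| ≤ C + ε * ∑ i ∈ Icc i0 J, 1 / (i : ℝ)

/-- the main theorem for kernels: one parameter families with a displaced point -/
theorem coreQ (hbox : S_BOX) (hlin : S_LIN) (hmer : S_MER)
    (k : ℕ) (ε : ℝ) (hε : 0 < ε) : ∃ C : ℝ, 0 < C ∧ ∀ (E : Finset (ℕ × ℕ)) (w : ℕ → ℝ) (g : ℝ),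
      (∀ e ∈ E, 1 ≤ e.1) → (∀ e ∈ E, 0 ≤ w e.1) → Gainy (E.image Prod.fst) w g →
      (∀ e ∈ E, ∀ e' ∈ E, e ≠ e' → e.2 * e'.1 ≠ e'.2 * e.1) →
      ∀ (X : Type) (S : Sys X) (K : X → ℝ)
      (G : Fin k → X → ℝ), (∀ x, |K x| ≤ 1) → (∀ j x, |G j x| ≤ 1) → Orth S K →
      NonnegP S (Fin.cons K G : Fin (k + 1) → X → ℝ) →
      ∀ (a : Fin k → ℕ) (φ : ℕ × ℕ → ℝ), ScaleQ S (Fin.cons K G : Fin (k + 1) → X → ℝ) E
        (fun e => (Fin.cons e.2 (fun j => a j * e.1) : Fin (k + 1) → ℕ)) φ → (∀ e ∈ E, ε ≤ φ e) →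
      ∑ e ∈ E, w e.1 ≤ C * g := by
  obtain ⟨κ, hκ, i0, hsieve⟩ := sieve hbox hlin hmer (k + 1) (by omega) (ε / 8) (by positivity)
  have hκ0 : 0 < κ := by linarith
  refine ⟨64 * κ ^ 2 / ε ^ 2, by positivity, fun E w g hE hw hgain hD X S K G hK hG oK hnonneg a φ hscale hbig => ?_⟩
  obtain ⟨I₀, hI₀, hg1⟩ := hgain
  -- all the kernels
  set G' : Fin (k + 1) → X → ℝ := Fin.cons K G with hG'
  have hG'1 : ∀ j z, |G' j z| ≤ 1 := by
    intro j
    refine Fin.cases ?_ (fun j => ?_) j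
    · exact hK
    · exact hG j
  set t : ℕ × ℕ → Fin (k + 1) → ℕ := fun e => Fin.cons e.2 (fun j => a j * e.1) with ht
  obtain ⟨C, hC, i1, hi1, hS⟩ := hscale (ε / 8) (by positivity)
  obtain ⟨i4, hi4⟩ := QDw_ge
  set I : ℕ := I₀ + i0 + i1 + i4 with hI
  obtain ⟨J₀, hg2⟩ := hg1 I (by omega)
  set A0 : ℝ := ∑ i ∈ Icc i1 I, 1 / (i : ℝ) with hA0
  obtain ⟨J1, hJ1⟩ := harm I ((C + (ε / 8) * A0) / (ε / 8))
  set J : ℕ := max J₀ J1 with hJ
  set A : ℝ := ∑ i ∈ Icc I J, 1 / (i : ℝ) with hA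
  have hJ1A : ∑ i ∈ Icc I J1, 1 / (i : ℝ) ≤ A := by
    apply sum_le_sum_of_subset_of_nonneg
    · intro i hi
      rw [mem_Icc] at hi ⊢
      have : J1 ≤ J := le_max_right _ _
      omega
    · intro _ _ _
      positivity
  have hA00 : 0 ≤ A0 := sum_nonneg fun _ _ => by positivity
  have hCA : C + ε / 8 * A0 < ε / 8 * A := by
    rw [div_lt_iff₀ (by positivity)] at hJ1
    have : (∑ i ∈ Icc I J1, 1 / (i : ℝ)) * (ε / 8) ≤ A * (ε / 8) := mul_le_mul_of_nonneg_right hJ1A (by positivity)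
    linarith
  have hApos : 0 < A := by
    by_contra hcon
    push Not at hcon
    have : ε / 8 * A ≤ 0 := mul_nonpos_of_nonneg_of_nonpos (by positivity) hcon
    have h3 : 0 ≤ ε / 8 * A0 := by positivity
    linarith
  -- the correlations
  set Φ : (Fin (k + 1) → ℕ) → ℝ := fun τ => S.m (PG S.T G' τ) with hΦ
  have hΦ0 : ∀ τ, 0 ≤ Φ τ := fun τ => hnonneg τ
  have hΦ1 : ∀ τ, Φ τ ≤ 1 := fun τ => S.le_one (PG1 S.T hG'1 τ)
  have hφ0 : ∀ e ∈ E, 0 ≤ φ e := fun e he => hε.le.trans (hbig e he)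
  set Δ : ℕ × ℕ → ℕ → ℝ := fun e i => ∑ p ∈ QD i (i + 1), Real.log p / 2 ^ i *
    |S.m (PG S.T G' (fun j => p * t e j)) - φ e| with hΔ
  have hΔ0 : ∀ e i, 0 ≤ Δ e i := fun e i =>
    sum_nonneg fun p hp => mul_nonneg (QDw_nonneg i p hp) (abs_nonneg _)
  set EM : ℕ × ℕ → ℕ → ℝ := fun e i => (1 / (2 : ℝ) ^ i) * ∑ m ∈ Ioc (2 ^ i) (2 ^ (i + 1)), Φ (fun j => m * t e j) with hEM
  set Q2 : ℕ × ℕ → ℕ → ℝ := fun e i => (1 / (2 : ℝ) ^ i) * ∑ m ∈ Ioc (2 ^ i) (2 ^ (i + 1)), (Φ (fun j => m * t e j)) ^ 2 with hQ2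
  have h1 : ∀ e ∈ E, ∀ i, I ≤ i → (1 / 2) * φ e ≤ κ * EM e i + ε / 8 + Δ e i := by
    intro e he i hi
    have hW := hi4 i (by omega)
    have h2 := hsieve i (by omega) X S (t e) G' hG'1 (fun m => hΦ0 _)
    have h5 : ∀ p ∈ QD i (i + 1), Real.log p / 2 ^ i * φ e ≤
        Real.log p / 2 ^ i * S.m (PG S.T G' (fun j => p * t e j)) + Real.log p / 2 ^ i *
          |S.m (PG S.T G' (fun j => p * t e j)) - φ e| := by
      intro p hp
      rw [← mul_add]
      apply mul_le_mul_of_nonneg_left _ (QDw_nonneg i p hp)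
      have h6 := neg_abs_le (S.m (PG S.T G' (fun j => p * t e j)) - φ e)
      linarith
    have h7 := sum_le_sum h5
    rw [← sum_mul, sum_add_distrib] at h7
    have h8 : (1 / 2) * φ e ≤ (∑ p ∈ QD i (i + 1), Real.log p / 2 ^ i) * φ e :=
      mul_le_mul_of_nonneg_right hW (hφ0 e he)
    have h9 : ∑ p ∈ QD i (i + 1), Real.log p / 2 ^ i * S.m (PG S.T G' (fun j => p * t e j)) ≤
        κ * EM e i + ε / 8 := h2
    have h10 : ∑ p ∈ QD i (i + 1), Real.log p / 2 ^ i *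
          |S.m (PG S.T G' (fun j => p * t e j)) - φ e| = Δ e i := rfl
    linarith
  -- from the first to the second moment
  obtain ⟨δ, hδ⟩ : ∃ δ : ℝ, δ = ε / (8 * κ) := ⟨_, rfl⟩
  have hδ0 : 0 < δ := by rw [hδ]; positivity
  have hEQ : ∀ e i, κ * EM e i ≤ ε / 16 + κ / (2 * δ) * Q2 e i := by
    intro e i
    have hcard : ((Ioc (2 ^ i) (2 ^ (i + 1))).card : ℝ) = 2 ^ i := by
      rw [Nat.card_Ioc, pow_succ, mul_two, Nat.add_sub_cancel]
      push_cast
      rfl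
    have h2 : ∀ m ∈ Ioc (2 ^ i) (2 ^ (i + 1)), Φ (fun j => m * t e j) ≤
        δ / 2 + 1 / (2 * δ) * (Φ (fun j => m * t e j)) ^ 2 := by
      intro m _
      have h9 : 0 ≤ (1 / (2 * δ)) * (Φ (fun j => m * t e j) - δ) ^ 2 := by positivity
      have h10 : (1 / (2 * δ)) * (Φ (fun j => m * t e j) - δ) ^ 2 =
          (1 / (2 * δ)) * (Φ (fun j => m * t e j)) ^ 2 - Φ (fun j => m * t e j) + δ / 2 := by
        field_simp
        ring
      linarith
    have h3 := sum_le_sum h2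
    rw [sum_add_distrib, sum_const, nsmul_eq_mul, hcard, ← mul_sum] at h3
    have h4 : EM e i ≤ δ / 2 + 1 / (2 * δ) * Q2 e i := by
      refine (mul_le_mul_of_nonneg_left h3 (by positivity : (0 : ℝ) ≤ 1 / (2 : ℝ) ^ i)).trans (le_of_eq ?_)
      simp only [hQ2]
      have h2i : (2 : ℝ) ^ i ≠ 0 := by positivity
      field_simp
    have h5 : κ * (δ / 2) = ε / 16 := by
      rw [hδ]
      field_simp
      ring
    calc κ * EM e i ≤ κ * (δ / 2 + 1 / (2 * δ) * Q2 e i) := mul_le_mul_of_nonneg_left h4 hκ0.le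
      _ = κ * (δ / 2) + κ / (2 * δ) * Q2 e i := by ring
      _ = ε / 16 + κ / (2 * δ) * Q2 e i := by rw [h5]
  -- the sums over the scales
  have h2 : ∀ e ∈ E, A ≤ (64 * κ ^ 2 / ε ^ 2) * ∑ i ∈ Icc I J, (1 / (i : ℝ)) * Q2 e i := by
    intro e he
    have h10 : ∑ i ∈ Icc I J, (1 / (i : ℝ)) * ((1 / 2) * φ e) ≤
        ∑ i ∈ Icc I J, (1 / (i : ℝ)) * ((κ / (2 * δ)) * Q2 e i + (3 * ε / 16) + Δ e i) :=
      sum_le_sum fun i hi => mul_le_mul_of_nonneg_left (by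
        have g1 := h1 e he i (mem_Icc.1 hi).1
        have g2 := hEQ e i
        linarith) (by positivity)
    rw [← sum_mul] at h10
    simp only [mul_add, sum_add_distrib, ← sum_mul] at h10
    have h11 : ∑ i ∈ Icc I J, (1 / (i : ℝ)) * Δ e i ≤ ∑ i ∈ Icc i1 J, (1 / (i : ℝ)) * Δ e i := by
      apply sum_le_sum_of_subset_of_nonneg
      · intro i hi
        rw [mem_Icc] at hi ⊢
        omega
      · intro i _ _
        exact mul_nonneg (by positivity) (hΔ0 e i)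
    have h12 : ∑ i ∈ Icc i1 J, 1 / (i : ℝ) ≤ A0 + A := by
      have hsub : Icc i1 J ⊆ Icc i1 I ∪ Icc I J := by
        intro i hi
        rw [mem_Icc] at hi
        rw [mem_union, mem_Icc, mem_Icc]
        omega
      refine (sum_le_sum_of_subset_of_nonneg hsub fun _ _ _ => by positivity).trans ?_
      exact sum_union_inter (s₁ := Icc i1 I) (s₂ := Icc I J) (f := fun i : ℕ => 1 / (i : ℝ)) ▸
        (le_add_of_nonneg_right (sum_nonneg fun _ _ => by positivity))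
    have h13 : ε / 8 * ∑ i ∈ Icc i1 J, 1 / (i : ℝ) ≤ ε / 8 * (A0 + A) :=
      mul_le_mul_of_nonneg_left h12 (by positivity)
    have hSJ := hS J e he
    have hSJ' : ∑ i ∈ Icc i1 J, (1 / (i : ℝ)) * Δ e i ≤ C + ε / 8 * ∑ i ∈ Icc i1 J, 1 / (i : ℝ) := hSJ
    have h14 : ∑ i ∈ Icc I J, (1 / (i : ℝ)) * ((κ / (2 * δ)) * Q2 e i) =
        (κ / (2 * δ)) * ∑ i ∈ Icc I J, (1 / (i : ℝ)) * Q2 e i := by
      rw [mul_sum]
      apply sum_congr rfl
      intro i _
      ring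
    rw [h14] at h10
    have h15 : A * ((1 / 2) * φ e) = (∑ i ∈ Icc I J, 1 / (i : ℝ)) * (1 / 2 * φ e) := rfl
    have hεA : 0 ≤ ε * A := mul_nonneg hε.le hApos.le
    have h16 : A * ((1 / 2) * ε) ≤ A * ((1 / 2) * φ e) :=
      mul_le_mul_of_nonneg_left (mul_le_mul_of_nonneg_left (hbig e he) (by norm_num)) hApos.le
    have h17 : (ε / 16) * A ≤ (κ / (2 * δ)) * ∑ i ∈ Icc I J, (1 / (i : ℝ)) * Q2 e i := by
      rw [h15] at h16
      linarith
    have h18 : κ / (2 * δ) = (ε / 16) * (64 * κ ^ 2 / ε ^ 2) := by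
      rw [hδ]
      field_simp
      ring
    rw [h18, mul_assoc] at h17
    exact le_of_mul_le_mul_left h17 (by positivity)
  -- the gain
  classical
  set b : ℕ → ℕ → ℝ := fun h m => if m = 0 then 0 else
    ∑ e ∈ E.filter (fun e => e.1 = h), (Φ (fun j => m * t e j)) ^ 2 with hb
  have hb0 : ∀ h m, 0 ≤ b h m := by
    intro h m
    simp only [hb]
    split_ifs
    · exact le_rfl
    · exact sum_nonneg fun _ _ => sq_nonneg _
  have hbes : ∀ z : ℕ, 1 ≤ z → ∑ e ∈ E.filter (fun e => e.1 ∣ z), (Φ (fun j => (z / e.1) * t e j)) ^ 2 ≤ 1 := by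
    intro z hz
    have hb' := bessel S (E.filter (fun e => e.1 ∣ z)) (fun e => sh S.T ((z / e.1) * e.2) K)
      (PG S.T G (fun j => a j * z)) (fun h _ => sh1 S.T _ hK) (PG1 S.T hG _) (by
        intro e he e' he' hne
        rw [mem_filter] at he he'
        apply oK
        intro heq
        apply hD e he.1 e' he'.1 hne
        obtain ⟨c, hc⟩ := he.2
        obtain ⟨c', hc'⟩ := he'.2
        have hh0 : 0 < e.1 := hE e he.1
        have hh0' : 0 < e'.1 := hE e' he'.1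
        have e1 : z / e.1 = c := by rw [hc, Nat.mul_div_cancel_left _ hh0]
        have e2 : z / e'.1 = c' := by rw [hc', Nat.mul_div_cancel_left _ hh0']
        rw [e1, e2] at heq
        have e3 : z * (e.2 * e'.1) = z * (e'.2 * e.1) := by
          calc z * (e.2 * e'.1) = (c * e.2) * (e.1 * e'.1) := by rw [hc]; ring
            _ = (c' * e'.2) * (e.1 * e'.1) := by rw [heq]
            _ = z * (e'.2 * e.1) := by rw [hc']; ring
        exact Nat.eq_of_mul_eq_mul_left (by omega) e3)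
    refine le_trans (le_of_eq ?_) hb'
    apply sum_congr rfl
    intro e he
    rw [mem_filter] at he
    congr 1
    have e1 : (fun j => z / e.1 * t e j) = (Fin.cons ((z / e.1) * e.2) (fun j => a j * z) : Fin (k + 1) → ℕ) := by
      simp only [ht]
      rw [cons_mul]
      congr 1
      funext j
      have : z / e.1 * e.1 = z := Nat.div_mul_cancel he.2
      calc z / e.1 * (a j * e.1) = a j * (z / e.1 * e.1) := by ring
        _ = a j * z := by rw [this]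
    show S.m (PG S.T G' (fun j => z / e.1 * t e j)) = _
    rw [e1]
    show S.m (PG S.T (Fin.cons K G : Fin (k + 1) → X → ℝ) (Fin.cons ((z / e.1) * e.2) (fun j => a j * z))) = _
    rw [PG_cons]
  have hbz : ∀ z : ℕ, 1 ≤ z → ∑ h ∈ (E.image Prod.fst).filter (fun h => h ∣ z), b h (z / h) ≤ 1 := by
    intro z hz
    refine le_trans (le_of_eq ?_) (hbes z hz)
    rw [← sum_fiberwise_of_maps_to (s := E.filter (fun e => e.1 ∣ z))
      (t := (E.image Prod.fst).filter (fun h => h ∣ z)) (g := Prod.fst) (fun e he => by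
        rw [mem_filter] at he ⊢
        exact ⟨mem_image_of_mem _ he.1, he.2⟩)]
    apply sum_congr rfl
    intro h hh
    rw [mem_filter, mem_image] at hh
    obtain ⟨⟨e0, he0, he0'⟩, hhz⟩ := hh
    have hh0 : 0 < h := by
      rw [← he0']
      exact hE e0 he0
    have hzh : z / h ≠ 0 := (Nat.div_pos (Nat.le_of_dvd (by omega) hhz) hh0).ne'
    simp only [hb, hzh, if_false]
    rw [filter_filter]
    have e1 : E.filter (fun e => e.1 = h) = E.filter (fun e => e.1 ∣ z ∧ e.1 = h) := by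
      apply filter_congr
      intro e _
      constructor
      · intro h1
        exact ⟨by rw [h1]; exact hhz, h1⟩
      · intro h1
        exact h1.2
    rw [e1]
    apply sum_congr rfl
    intro e he
    rw [mem_filter] at he
    rw [he.2.2]
  have hb1 : ∀ h m, b h m ≤ 1 := by
    intro h m
    by_cases hm : m = 0
    · simp only [hb, hm, if_true]
      exact zero_le_one
    · by_cases hh : h ∈ E.image Prod.fst
      · have hh0 : 0 < h := by
          rw [mem_image] at hh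
          obtain ⟨e0, he0, he0'⟩ := hh
          rw [← he0']
          exact hE e0 he0
        have h3 := hbz (h * m) (Nat.mul_pos hh0 (Nat.pos_of_ne_zero hm))
        have h4 := single_le_sum (f := fun h' => b h' (h * m / h')) (fun h' _ => hb0 h' _)
          (mem_filter.2 ⟨hh, Dvd.intro m rfl⟩ : h ∈ (E.image Prod.fst).filter (fun h' => h' ∣ h * m))
        have h5 : b h (h * m / h) = b h m := by rw [Nat.mul_div_cancel_left _ hh0]
        simp only [h5] at h4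
        exact h4.trans h3
      · have h3 : E.filter (fun e => e.1 = h) = ∅ := by
          rw [filter_eq_empty_iff]
          intro e he h4
          apply hh
          rw [mem_image]
          exact ⟨e, he, h4⟩
        simp only [hb, hm, if_false, h3, sum_empty]
        exact zero_le_one
  have h3 := hg2 J (le_max_left _ _) b (fun h m => ⟨hb0 h m, hb1 h m⟩) hbz
  have h4 : ∑ e ∈ E, w e.1 * ∑ i ∈ Icc I J, (1 / (i : ℝ)) * Q2 e i ≤ g * A := by
    refine le_trans (le_of_eq ?_) h3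
    have e1 : ∀ i : ℕ, ∀ m ∈ Ioc (2 ^ i) (2 ^ (i + 1)), ∑ h ∈ E.image Prod.fst, w h * b h m =
        ∑ e ∈ E, w e.1 * (Φ (fun j => m * t e j)) ^ 2 := by
      intro i m hm
      rw [mem_Ioc] at hm
      have hm0 : m ≠ 0 := by omega
      simp only [hb, hm0, if_false]
      exact sum_fst E w (fun e => (Φ (fun j => m * t e j)) ^ 2)
    have e2 : ∀ i : ℕ, ∑ m ∈ Ioc (2 ^ i) (2 ^ (i + 1)), ∑ h ∈ E.image Prod.fst, w h * b h m =
        ∑ m ∈ Ioc (2 ^ i) (2 ^ (i + 1)), ∑ e ∈ E, w e.1 * (Φ (fun j => m * t e j)) ^ 2 := fun i =>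
      sum_congr rfl (e1 i)
    simp only [e2]
    simp only [hQ2, mul_sum]
    rw [sum_comm]
    apply sum_congr rfl
    intro i _
    rw [sum_comm]
    apply sum_congr rfl
    intro m _
    apply sum_congr rfl
    intro h _
    ring
  -- conclusion
  have h5 : ∑ e ∈ E, w e.1 * A ≤ ∑ e ∈ E, w e.1 * ((64 * κ ^ 2 / ε ^ 2) *
      ∑ i ∈ Icc I J, (1 / (i : ℝ)) * Q2 e i) :=
    sum_le_sum fun e he => mul_le_mul_of_nonneg_left (h2 e he) (hw e he)
  have e5 : ∑ e ∈ E, w e.1 * ((64 * κ ^ 2 / ε ^ 2) * ∑ i ∈ Icc I J, (1 / (i : ℝ)) * Q2 e i) =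
      (64 * κ ^ 2 / ε ^ 2) * ∑ e ∈ E, w e.1 * ∑ i ∈ Icc I J, (1 / (i : ℝ)) * Q2 e i := by
    rw [mul_sum]
    apply sum_congr rfl
    intro e _
    ring
  rw [← sum_mul, e5] at h5
  have h6 : (64 * κ ^ 2 / ε ^ 2) * ∑ e ∈ E, w e.1 * ∑ i ∈ Icc I J, (1 / (i : ℝ)) * Q2 e i ≤
      (64 * κ ^ 2 / ε ^ 2) * (g * A) := mul_le_mul_of_nonneg_left h4 (by positivity)
  have h7 : (∑ e ∈ E, w e.1) * A ≤ ((64 * κ ^ 2 / ε ^ 2) * g) * A := by
    refine (h5.trans h6).trans (le_of_eq ?_)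
    ring
  exact le_of_mul_le_mul_right h7 hApos

/-- the main theorem for kernels: the exceptional pairs are rare in two senses -/
theorem coreAQ (k : ℕ) (ε η : ℝ) (hε : 0 < ε) (hη : 0 < η) : ∃ C : ℝ, 0 < C ∧ ∃ H₀ : ℕ, 1 ≤ H₀ ∧
    ∀ (E : Finset (ℕ × ℕ)), (∀ e ∈ E, 1 ≤ e.1) →
      (∀ e ∈ E, ∀ e' ∈ E, e ≠ e' → e.2 * e'.1 ≠ e'.2 * e.1) →
      ∀ (X : Type) (S : Sys X) (K : X → ℝ)
      (G : Fin k → X → ℝ), (∀ x, |K x| ≤ 1) → (∀ j x, |G j x| ≤ 1) → Orth S K →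
      NonnegP S (Fin.cons K G : Fin (k + 1) → X → ℝ) →
      ∀ (a : Fin k → ℕ) (φ : ℕ × ℕ → ℝ), ScaleQ S (Fin.cons K G : Fin (k + 1) → X → ℝ) E
        (fun e => (Fin.cons e.2 (fun j => a j * e.1) : Fin (k + 1) → ℕ)) φ → (∀ e ∈ E, ε ≤ φ e) →
      ∑ e ∈ E, 1 / (e.1 : ℝ) ≤ C ∧ ∀ H : ℕ, H₀ ≤ H → (∀ e ∈ E, e.1 ≤ H) → (E.card : ℝ) ≤ η * H := by
  obtain ⟨C, hC, hcore⟩ := coreQ Pool.Agent.Y141.CP.box
    (Pool.Agent.Y674.CP.lin (Pool.Agent.Y220.CP.cor Pool.Agent.Y888.CP.fld Pool.Agent.Y394.CP.loc))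
    Pool.Agent.Y908.CP.mer k ε hε
  obtain ⟨H₀, hH₀, hA⟩ := gainyA (Pool.Agent.Y858.CP.gain Pool.Agent.Y960.CP.tk) (η / C) (by positivity)
  refine ⟨C * 32, by positivity, H₀, hH₀, fun E hE hD X S K G hK hG oK hn a φ hs hbig => ⟨?_, ?_⟩⟩
  · refine hcore E (fun h => 1 / (h : ℝ)) 32 hE (fun _ _ => by positivity)
      (gainyB Pool.Agent.Y279.CP.gainl _ ?_) hD X S K G hK hG oK hn a φ hs hbig
    intro h hh
    rw [mem_image] at hh
    obtain ⟨e, he, rfl⟩ := hh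
    exact hE e he
  · intro H hH hEH
    have hH1 : (0 : ℝ) < H := by
      have : 0 < H := by omega
      exact_mod_cast this
    have h1 := hcore E (fun _ => 1 / (H : ℝ)) (η / C) hE (fun _ _ => by positivity) (hA H hH _ (by
      intro h hh
      rw [mem_image] at hh
      obtain ⟨e, he, rfl⟩ := hh
      rw [mem_Icc]
      exact ⟨hE e he, hEH e he⟩)) hD X S K G hK hG oK hn a φ hs hbig
    rw [sum_const, nsmul_eq_mul] at h1
    have h2 : C * (η / C) = η := by field_simp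
    rw [h2, mul_one_div, div_le_iff₀ hH1] at h1
    exact h1

end Pool.Agent.Y956.CQ
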