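import Pool.Agent.Y956.CQ.RareC
import Pool.Agent.Y956.CP.Fin

/-!
# Integer shifts and finite forms
-/

set_option autoImplicit false

namespace Pool.Agent.Y956.CQ

open Finset
open ArithmeticFunction (cardFactors)
open Pool.Agent.TH112.BL (LM)
open Pool.Agent.TH575.CW (QD win theta_QD)
open Pool.Agent.Y956.CB Pool.Agent.Y956.CP

/-- complex means over `0 ≤ n < x` -/
noncomputable def cm (f : ℕ → ℂ) (x : ℕ) : ℂ := (1 / (x : ℂ)) * ∑ n ∈ range x, f n

/-- the correlation with a centered function, integer shifts -/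
noncomputable def zc (V : ℕ → ℂ) (VZ : ℤ → ℂ) {k : ℕ} (W : Fin k → ℤ → ℂ) (d : ℤ) (t : Fin k → ℤ) (x : ℕ) : ℂ :=
  cm (fun n => (VZ (n + d) - cm V x) * ∏ j, W j (n + t j)) x

lemma cm_bound {f : ℕ → ℂ} {C : ℝ} (hf : ∀ n, ‖f n‖ ≤ C) (x : ℕ) : ‖cm f x‖ ≤ C := by
  have hC : 0 ≤ C := (norm_nonneg _).trans (hf 0)
  unfold cm
  rcases Nat.eq_zero_or_pos x with h0 | h0
  · subst h0; simpa using hC
  · have hx : (0 : ℝ) < x := by exact_mod_cast h0
    rw [norm_mul]
    have e : ‖(1 / (x : ℂ))‖ = 1 / (x : ℝ) := by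
      rw [norm_div, norm_one, Complex.norm_natCast]
    rw [e, one_div, inv_mul_le_iff₀ hx]
    refine (norm_sum_le _ _).trans ((sum_le_sum fun n _ => hf n).trans ?_)
    simp

lemma cm_shift {f : ℕ → ℂ} {C : ℝ} (hf : ∀ n, ‖f n‖ ≤ C) (T x : ℕ) (hx : 1 ≤ x) :
    ‖cm f x‖ ≤ ‖cm (fun n => f (n + T)) x‖ + 2 * C * T / x := by
  have hx0 : (0 : ℝ) < x := by exact_mod_cast hx
  have key : ∀ T : ℕ, ‖∑ n ∈ range x, f n - ∑ n ∈ range x, f (n + T)‖ ≤ 2 * C * T := by
    intro T
    induction T with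
    | zero => simp
    | succ T ih =>
      have g1 := sum_range_succ (fun n => f (n + T)) x
      have g2 := sum_range_succ' (fun n => f (n + T)) x
      have e : ∑ n ∈ range x, f (n + (T + 1)) = ∑ n ∈ range x, f (n + T) + (f (x + T) - f (0 + T)) := by
        have e1 : ∑ n ∈ range x, f (n + (T + 1)) = ∑ n ∈ range x, f (n + 1 + T) := by
          apply sum_congr rfl
          intro n _
          congr 1
          ring
        rw [e1]
        have g3 : ∑ n ∈ range x, f (n + 1 + T) + f (0 + T) = ∑ n ∈ range x, f (n + T) + f (x + T) := by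
          rw [← g1, g2]
        linear_combination g3
      rw [e]
      have e2 : ∑ n ∈ range x, f n - (∑ n ∈ range x, f (n + T) + (f (x + T) - f (0 + T))) =
          (∑ n ∈ range x, f n - ∑ n ∈ range x, f (n + T)) - (f (x + T) - f (0 + T)) := by ring
      rw [e2]
      refine (norm_sub_le _ _).trans ?_
      have h3 : ‖f (x + T) - f (0 + T)‖ ≤ 2 * C := (norm_sub_le _ _).trans (by linarith [hf (x + T), hf (0 + T)])
      push_cast
      linarith
  have e0 : cm f x = cm (fun n => f (n + T)) x + (1 / (x : ℂ)) * (∑ n ∈ range x, f n - ∑ n ∈ range x, f (n + T)) := by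
    unfold cm
    ring
  rw [e0]
  refine (norm_add_le _ _).trans (add_le_add le_rfl ?_)
  rw [norm_mul]
  have e : ‖(1 / (x : ℂ))‖ = 1 / (x : ℝ) := by
    rw [norm_div, norm_one, Complex.norm_natCast]
  rw [e]
  calc 1 / (x : ℝ) * ‖∑ n ∈ range x, f n - ∑ n ∈ range x, f (n + T)‖ ≤ 1 / (x : ℝ) * (2 * C * T) :=
        mul_le_mul_of_nonneg_left (key T) (by positivity)
    _ = 2 * C * T / x := by ring

lemma cm_re (V : ℕ → ℂ) (x : ℕ) : cm V x = ((ee (rip V true) x : ℝ) : ℂ) + Complex.I * ((ee (rip V false) x : ℝ) : ℂ) := by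
  unfold cm ee rip
  simp only [if_true, Bool.false_eq_true, if_false]
  push_cast
  have e : ∑ n ∈ range x, V n = ∑ n ∈ range x, ((V n).re : ℂ) + Complex.I * ∑ n ∈ range x, ((V n).im : ℂ) := by
    rw [mul_sum, ← sum_add_distrib]
    apply sum_congr rfl
    intro n _
    rw [mul_comm]
    exact (Complex.re_add_im (V n)).symm
  rw [e]
  ring

/-- expansion in real correlations -/
lemma zc_le (V : ℕ → ℂ) {k : ℕ} (w : Fin k → ℕ → ℂ) (D : ℕ) (t : Fin k → ℕ) (x : ℕ) :
    ‖cm (fun n => (V (n + D) - cm V x) * ∏ j, w j (n + t j)) x‖ ≤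
      ∑ σ ∈ (univ : Finset (Fin k)).powerset,
        (|cf (rip V true) (fun j => rip (w j) (decide (j ∈ σ))) D t x| +
          |cf (rip V false) (fun j => rip (w j) (decide (j ∈ σ))) D t x|) := by
  classical
  set S := (univ : Finset (Fin k)) with hS
  have h1 : ∀ n, (V (n + D) - cm V x) * ∏ j, w j (n + t j) = ∑ σ ∈ S.powerset, Complex.I ^ (S \ σ).card *
      ((((rip V true (n + D) - ee (rip V true) x) * ∏ j, rip (w j) (decide (j ∈ σ)) (n + t j) : ℝ) : ℂ) +
        Complex.I * (((rip V false (n + D) - ee (rip V false) x) *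
          ∏ j, rip (w j) (decide (j ∈ σ)) (n + t j) : ℝ) : ℂ)) := by
    intro n
    rw [prod_ri S (fun j => w j (n + t j)), mul_sum]
    apply sum_congr rfl
    intro σ _
    have e : ∏ t_1 ∈ S, (if t_1 ∈ σ then (w t_1 (n + t t_1)).re else (w t_1 (n + t t_1)).im) =
        ∏ j, rip (w j) (decide (j ∈ σ)) (n + t j) := by
      apply prod_congr rfl
      intro j _
      unfold rip
      simp only [decide_eq_true_eq]
    rw [e]
    have e2 : V (n + D) = ((rip V true (n + D) : ℝ) : ℂ) + Complex.I * ((rip V false (n + D) : ℝ) : ℂ) := by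
      unfold rip
      simp only [if_true, Bool.false_eq_true, if_false]
      rw [mul_comm]
      exact (Complex.re_add_im _).symm
    rw [e2, cm_re V x]
    push_cast
    ring
  have h2 : cm (fun n => (V (n + D) - cm V x) * ∏ j, w j (n + t j)) x = ∑ σ ∈ S.powerset, Complex.I ^ (S \ σ).card *
      (((cf (rip V true) (fun j => rip (w j) (decide (j ∈ σ))) D t x : ℝ) : ℂ) + Complex.I *
        ((cf (rip V false) (fun j => rip (w j) (decide (j ∈ σ))) D t x : ℝ) : ℂ)) := by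
    rw [cm]
    simp only [h1]
    rw [sum_comm, mul_sum]
    apply sum_congr rfl
    intro σ _
    unfold cf ee
    rw [← mul_sum, sum_add_distrib, ← mul_sum]
    push_cast
    ring
  rw [h2]
  refine (norm_sum_le _ _).trans (sum_le_sum fun σ _ => ?_)
  rw [norm_mul, norm_pow, Complex.norm_I, one_pow, one_mul]
  refine (norm_add_le _ _).trans ?_
  rw [norm_mul, Complex.norm_I, one_mul, Complex.norm_real, Complex.norm_real, Real.norm_eq_abs, Real.norm_eq_abs]

lemma zc_bound {V : ℕ → ℂ} (hV : ∀ n, ‖V n‖ ≤ 1) {VZ : ℤ → ℂ} (hVZ : ∀ m, ‖VZ m‖ ≤ 1) {k : ℕ} {W : Fin k → ℤ → ℂ}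
    (hW : ∀ j m, ‖W j m‖ ≤ 1) (d : ℤ) (t : Fin k → ℤ) (x : ℕ) (n : ℕ) :
    ‖(VZ (n + d) - cm V x) * ∏ j, W j (n + t j)‖ ≤ 2 := by
  rw [norm_mul, norm_prod]
  have h1 : ‖VZ (n + d) - cm V x‖ ≤ 2 := (norm_sub_le _ _).trans (by linarith [hVZ (n + d), cm_bound hV x])
  calc ‖VZ (n + d) - cm V x‖ * ∏ j, ‖W j (n + t j)‖ ≤ 2 * 1 :=
        mul_le_mul h1 (prod_le_one (fun _ _ => norm_nonneg _) (fun _ _ => hW _ _))
          (by positivity) (by norm_num)
    _ = 2 := by norm_num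

/-- the exceptional pairs are rare: integer shifts -/
theorem rare_int (k : ℕ) (ε η : ℝ) (hε : 0 < ε) (hη : 0 < η) :
    ∃ C : ℝ, 0 < C ∧ ∃ H₀ : ℕ, 1 ≤ H₀ ∧ ∀ (μ : LM) (γ w' w : Fin k → ℕ → ℂ),
      (∀ j, Cov (γ j) (w' j) (w j)) → SmallD (fun p => ∑ j, (1 - ‖γ j p‖ ^ 2)) →
      ∀ W : Fin k → ℤ → ℂ, (∀ j, Ext (w j) (W j)) →
      ∀ V' V : ℕ → ℂ, (∀ n, ‖V' n‖ ≤ 1) → (∀ n, ‖V n‖ ≤ 1) → (∀ p n, p.Prime → ¬ p ∣ n → V' (p * n) = V n) →
      (∀ i, Orth (nux μ) (cen (rip V' i))) → ∀ VZ : ℤ → ℂ, Ext V VZ →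
      ∀ S : Finset (ℕ × ℤ), DistZ S → ∀ a : Fin k → ℤ,
      (∀ e ∈ S, ε ≤ μ.m (fun x => ‖zc V VZ W e.2 (fun j => a j * e.1) x‖)) → RareZ S C η H₀ := by
  classical
  set N : ℝ := (2 : ℝ) ^ k * 2 with hN
  have hN0 : 0 < N := by positivity
  set ε₁ : ℝ := ε / (2 * N) with hε₁
  have hε₁0 : 0 < ε₁ := by positivity
  set η₁ : ℝ := η / N with hη₁
  have hη₁0 : 0 < η₁ := by positivity
  obtain ⟨C₁, hC₁, H₀, hH₀, hrare⟩ := rare_cf k ε₁ η₁ hε₁0 hη₁0
  refine ⟨N * C₁, by positivity, H₀, hH₀, ?_⟩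
  intro μ γ w' w hw hds W hW V' V hV' hV hVV oV VZ hVZ S hS a hbig
  have hrb : ∀ {f : ℕ → ℂ}, (∀ n, ‖f n‖ ≤ 1) → ∀ i n, |rip f i n| ≤ 1 := fun hf i n => rip_b hf i n
  set M : ℕ := 1 + ∑ e ∈ S, e.2.natAbs + ∑ j, (a j).natAbs with hM
  set d' : ℕ × ℤ → ℕ := fun e => (e.2 + M * e.1).toNat with hd'
  set a' : Fin k → ℕ := fun j => (a j + M).toNat with ha'
  have hd1 : ∀ e ∈ S, (d' e : ℤ) = e.2 + M * e.1 ∧ 1 ≤ d' e := by
    intro e he
    have h1 := single_le_sum (f := fun e : ℕ × ℤ => e.2.natAbs) (fun _ _ => Nat.zero_le _) he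
    have h2 : e.2.natAbs + 1 ≤ M := by
      have h3 : e.2.natAbs ≤ ∑ e ∈ S, e.2.natAbs := h1
      omega
    have h4 := hS.1 e he
    have h5 : (M : ℤ) ≤ M * e.1 := by
      have h6 : M ≤ M * e.1 := Nat.le_mul_of_pos_right _ h4
      exact_mod_cast h6
    have h7 : (1 : ℤ) ≤ e.2 + M * e.1 := by omega
    refine ⟨Int.toNat_of_nonneg (by omega), ?_⟩
    simp only [hd']
    omega
  have ha1 : ∀ j, (a' j : ℤ) = a j + M ∧ 1 ≤ a' j := by
    intro j
    have h1 := single_le_sum (f := fun j => (a j).natAbs) (fun _ _ => Nat.zero_le _) (mem_univ j)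
    have h2 : (a j).natAbs + 1 ≤ M := by
      have h3 : (a j).natAbs ≤ ∑ j, (a j).natAbs := h1
      omega
    have h7 : (1 : ℤ) ≤ a j + M := by omega
    refine ⟨Int.toNat_of_nonneg (by omega), ?_⟩
    simp only [ha']
    omega
  -- the real correlations
  set U : Bool × Finset (Fin k) → ℕ × ℤ → ℕ → ℝ := fun i e =>
    cf (rip V i.1) (fun j => rip (w j) (decide (j ∈ i.2))) (d' e) (fun j => a' j * e.1) with hU
  have hUb : ∀ i e, Bd (U i e) := fun i e => ⟨2, fun x => cf1 (hrb hV i.1) (fun j => hrb (hw j).b _) _ _ x⟩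
  set I : Finset (Bool × Finset (Fin k)) := (univ : Finset Bool) ×ˢ (univ : Finset (Fin k)).powerset with hI
  have hIc : (I.card : ℝ) = N := by
    rw [hI, card_product, card_powerset, card_univ, card_univ, Fintype.card_fin, Fintype.card_bool, hN]
    push_cast
    ring
  have hcover : ∀ e ∈ S, ∃ i ∈ I, ε₁ ≤ μ.m (fun x => |U i e x|) := by
    intro e he
    by_contra hcon
    push Not at hcon
    have hZb : Bd (fun x => ‖zc V VZ W e.2 (fun j => a j * e.1) x‖) :=
      ⟨2, fun x => by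
        rw [abs_of_nonneg (norm_nonneg _)]
        exact cm_bound (zc_bound hV hVZ.b (fun j => (hW j).b) _ _ x) x⟩
    have hsb : Bd (fun x => ∑ i ∈ I, |U i e x|) :=
      Pool.Agent.TH112.BL.Bd.sum _ fun i _ => (hUb i e).abs
    have hpt : ∀ x : ℕ, 1 ≤ x → ‖zc V VZ W e.2 (fun j => a j * e.1) x‖ -
        ∑ i ∈ I, |U i e x| ≤ 0 + (2 * 2 * (M * e.1 : ℕ)) / x := by
      intro x hx
      have h1 := cm_shift (zc_bound hV hVZ.b (fun j => (hW j).b) e.2 (fun j => a j * e.1) x) (M * e.1) x hx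
      obtain ⟨g3, g4⟩ := hd1 e he
      have e1 : (fun n : ℕ => (VZ (((n + M * e.1 : ℕ) : ℤ) + e.2) - cm V x) *
          ∏ j, W j (((n + M * e.1 : ℕ) : ℤ) + a j * e.1)) =
          fun n => (V (n + d' e) - cm V x) * ∏ j, w j (n + a' j * e.1) := by
        funext n
        have e2 : ((n + M * e.1 : ℕ) : ℤ) + e.2 = ((n + d' e : ℕ) : ℤ) := by
          push_cast
          rw [g3]
          ring
        rw [e2, hVZ.e _ (by omega)]
        congr 1
        apply prod_congr rfl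
        intro j _
        have e3 : ((n + M * e.1 : ℕ) : ℤ) + a j * e.1 = ((n + a' j * e.1 : ℕ) : ℤ) := by
          push_cast
          rw [(ha1 j).1]
          ring
        rw [e3, (hW j).e _ (by
          have h5 := (ha1 j).2
          have h6 := hS.1 e he
          have h7 : 1 ≤ a' j * e.1 := Nat.mul_pos h5 h6
          omega)]
      have h2 := zc_le V w (d' e) (fun j => a' j * e.1) x
      have h3 : ∑ σ ∈ (univ : Finset (Fin k)).powerset,
          (|cf (rip V true) (fun j => rip (w j) (decide (j ∈ σ))) (d' e) (fun j => a' j * e.1) x| +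
          |cf (rip V false) (fun j => rip (w j) (decide (j ∈ σ))) (d' e) (fun j => a' j * e.1) x|) =
          ∑ i ∈ I, |U i e x| := by
        rw [hI, sum_product, Fintype.sum_bool, ← sum_add_distrib]
      rw [h3] at h2
      rw [e1] at h1
      have h4 : ‖zc V VZ W e.2 (fun j => a j * e.1) x‖ ≤
          ‖cm (fun n => (V (n + d' e) - cm V x) * ∏ j, w j (n + a' j * e.1)) x‖ +
            2 * 2 * ((M * e.1 : ℕ) : ℝ) / x := h1
      linarith
    have h4 := lm_small_le μ (hZb.sub' hsb) (K := 2 * 2 * ((M * e.1 : ℕ) : ℝ)) (by positivity) 0 hpt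
    rw [μ.sub hZb hsb, μ.sum _ (fun i _ => (hUb i e).abs)] at h4
    have h5 : ∑ i ∈ I, μ.m (fun x => |U i e x|) ≤ ∑ _i ∈ I, ε₁ := sum_le_sum fun i hi => (hcon i hi).le
    rw [sum_const, nsmul_eq_mul, hIc] at h5
    have h6 := hbig e he
    have h7 : N * ε₁ = ε / 2 := by
      rw [hε₁]
      field_simp
    linarith
  -- the pairs of each kind
  set φ : ℕ × ℤ → ℕ × ℕ := fun e => (e.1, d' e) with hφ
  have hφi : ∀ e ∈ S, ∀ e' ∈ S, φ e = φ e' → e = e' := by
    intro e he e' he' h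
    simp only [hφ, Prod.mk.injEq] at h
    have h1 := (hd1 e he).1
    have h2 := (hd1 e' he').1
    rw [h.2, h.1] at h1
    have h3 : e.2 = e'.2 := by linarith
    exact Prod.ext h.1 h3
  have hkind : ∀ i ∈ I, Rare ((S.filter (fun e => ε₁ ≤ μ.m (fun x => |U i e x|))).image φ) C₁ η₁ H₀ := by
    intro i hi
    apply hrare μ γ w' w hw hds (rip V' i.1) (rip V i.1) (hrb hV' i.1) (hrb hV i.1) ?_ (oV i.1) _ ?_ a'
      (fun j => decide (j ∈ i.2))
    · intro e he
      rw [mem_image] at he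
      obtain ⟨e0, he0, rfl⟩ := he
      rw [mem_filter] at he0
      exact he0.2
    · intro p n hp hn
      unfold rip
      rw [hVV p n hp hn]
    · constructor
      · intro e he
        rw [mem_image] at he
        obtain ⟨e0, he0, rfl⟩ := he
        rw [mem_filter] at he0
        exact hS.1 e0 he0.1
      · intro e he e' he' hne heq
        rw [mem_image] at he he'
        obtain ⟨e0, he0, rfl⟩ := he
        obtain ⟨e1, he1, rfl⟩ := he'
        rw [mem_filter] at he0 he1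
        have hne' : e0 ≠ e1 := fun h => hne (by rw [h])
        apply hS.2 e0 he0.1 e1 he1.1 hne'
        simp only [hφ] at heq
        have h1 := (hd1 e0 he0.1).1
        have h2 := (hd1 e1 he1.1).1
        have h3 : (d' e0 : ℤ) * e1.1 = d' e1 * e0.1 := by exact_mod_cast heq
        rw [h1, h2] at h3
        linear_combination h3
  have hsub : ∀ i, (S.filter (fun e => ε₁ ≤ μ.m (fun x => |U i e x|))) ⊆ S := fun i => filter_subset _ _
  have hinj : ∀ i, Set.InjOn φ (S.filter (fun e => ε₁ ≤ μ.m (fun x => |U i e x|))) := by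
    intro i e he e' he' h
    exact hφi e (hsub i he) e' (hsub i he') h
  constructor
  · have h1 := sum_cover S I (fun i e => ε₁ ≤ μ.m (fun x => |U i e x|)) hcover (fun e => 1 / (e.1 : ℝ))
      (fun e => by positivity)
    have h2 : ∑ i ∈ I, ∑ e ∈ S.filter (fun e => ε₁ ≤ μ.m (fun x => |U i e x|)), 1 / (e.1 : ℝ) ≤ ∑ _i ∈ I, C₁ := by
      apply sum_le_sum
      intro i hi
      have h3 := (hkind i hi).1
      rw [sum_image (hinj i)] at h3
      exact h3
    rw [sum_const, nsmul_eq_mul, hIc] at h2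
    exact h1.trans h2
  · intro H hH hSH
    have h1 := sum_cover S I (fun i e => ε₁ ≤ μ.m (fun x => |U i e x|)) hcover (fun _ => (1 : ℝ))
      (fun e => zero_le_one)
    have h2 : ∑ i ∈ I, ∑ _e ∈ S.filter (fun e => ε₁ ≤ μ.m (fun x => |U i e x|)), (1 : ℝ) ≤ ∑ _i ∈ I, η₁ * H := by
      apply sum_le_sum
      intro i hi
      have h3 := (hkind i hi).2 H hH (by
        intro e he
        rw [mem_image] at he
        obtain ⟨e0, he0, rfl⟩ := he
        exact hSH e0 (hsub i he0))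
      rw [card_image_of_injOn (hinj i)] at h3
      rw [sum_const, nsmul_eq_mul, mul_one]
      exact h3
    rw [sum_const, nsmul_eq_mul, hIc] at h2
    rw [sum_const, nsmul_eq_mul, mul_one] at h1
    calc (S.card : ℝ) ≤ N * (η₁ * H) := h1.trans h2
      _ = η * H := by
          rw [hη₁]
          field_simp

end Pool.Agent.Y956.CQ
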