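import Pool.Agent.Y956.CQ.FinO

/-!
# Finite form with averages over `1 ≤ n ≤ x`
-/

set_option autoImplicit false

namespace Pool.Agent.Y956.CQ

open Finset
open ArithmeticFunction (cardFactors)
open Pool.Agent.Y956.CB Pool.Agent.Y956.CP

lemma sum_sq_le (Y W : ℕ) (hY : 1 ≤ Y) : ∑ x ∈ Ioc Y W, (1 / (x : ℝ)) * (1 / (x : ℝ)) ≤ 1 := by
  have h : ∀ W : ℕ, Y ≤ W → ∑ x ∈ Ioc Y W, (1 / (x : ℝ)) * (1 / (x : ℝ)) ≤ 1 / (Y : ℝ) - 1 / (W : ℝ) := by
    intro W hW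
    induction W, hW using Nat.le_induction with
    | base => simp
    | succ W hW ih =>
      have hW0 : (0 : ℝ) < W := by exact_mod_cast lt_of_lt_of_le hY hW
      rw [sum_Ioc_succ_top hW]
      have e : (1 / ((W + 1 : ℕ) : ℝ)) * (1 / ((W + 1 : ℕ) : ℝ)) ≤ 1 / (W : ℝ) - 1 / ((W + 1 : ℕ) : ℝ) := by
        push_cast
        rw [div_mul_div_comm, one_mul, div_sub_div _ _ hW0.ne' (by positivity), div_le_div_iff₀ (by positivity)
          (by positivity)]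
        nlinarith
      linarith
  have hY0 : (1 : ℝ) ≤ Y := by exact_mod_cast hY
  rcases le_total Y W with h1 | h1
  · have h2 := h W h1
    have h3 : 1 / (Y : ℝ) ≤ 1 := by rw [div_le_one (by linarith)]; exact hY0
    have h4 : 0 ≤ 1 / (W : ℝ) := by positivity
    linarith
  · rw [Ioc_eq_empty_of_le h1]
    simp

/-- errors `O(1/x)` do not matter in long windows -/
lemma wa_transfer {ι : Type} (S : Finset ι) (φ φ' : ι → ℕ → ℝ) (B : ℝ) (hB0 : 0 ≤ B)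
    (hM : ∀ e ∈ S, ∀ x : ℕ, 1 ≤ x → φ' e x ≤ φ e x + B * (1 / (x : ℝ))) (ε : ℝ) (hε : 0 < ε) :
    ∃ n₀ : ℕ, ∀ Y W : ℕ, 1 ≤ Y → n₀ * Y ≤ W →
      ∀ e ∈ S, ε < WA (φ' e) Y W → ε / 2 < WA (φ e) Y W := by
  obtain ⟨n₀, hn₀⟩ := exists_nat_ge (Real.exp (2 * B / ε + 1))
  refine ⟨n₀, fun Y W hY hW e he h => ?_⟩
  have hY0 : (0 : ℝ) < Y := by exact_mod_cast hY
  have hWY : (n₀ : ℝ) ≤ (W : ℝ) / Y := by
    rw [le_div_iff₀ hY0]
    exact_mod_cast hW
  have hlog : 2 * B / ε + 1 ≤ Real.log ((W : ℝ) / Y) := by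
    rw [Real.le_log_iff_exp_le (lt_of_lt_of_le (Real.exp_pos _) (hn₀.trans hWY))]
    exact hn₀.trans hWY
  have hlog0 : 0 < Real.log ((W : ℝ) / Y) := by
    have : 0 ≤ 2 * B / ε := by positivity
    linarith
  have h4 : WA (φ' e) Y W ≤ WA (φ e) Y W + ε / 2 := by
    unfold WA
    calc (1 / Real.log ((W : ℝ) / Y)) * ∑ x ∈ Ioc Y W, (1 / (x : ℝ)) * φ' e x
        ≤ (1 / Real.log ((W : ℝ) / Y)) * ∑ x ∈ Ioc Y W, ((1 / (x : ℝ)) *
          φ e x + B * ((1 / (x : ℝ)) * (1 / (x : ℝ)))) := by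
          apply mul_le_mul_of_nonneg_left _ (by positivity)
          apply sum_le_sum
          intro x hx
          rw [mem_Ioc] at hx
          have hx0 : (0 : ℝ) < x := by
            have : 0 < x := by omega
            exact_mod_cast this
          have h5 := hM e he x (by omega)
          have h8 : (1 / (x : ℝ)) * φ' e x ≤ (1 / (x : ℝ)) * (φ e x + B * (1 / (x : ℝ))) :=
            mul_le_mul_of_nonneg_left (by linarith) (by positivity)
          linarith [h8]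
      _ = (1 / Real.log ((W : ℝ) / Y)) * ∑ x ∈ Ioc Y W, (1 / (x : ℝ)) * φ e x +
          (1 / Real.log ((W : ℝ) / Y)) * (B * ∑ x ∈ Ioc Y W, (1 / (x : ℝ)) * (1 / (x : ℝ))) := by
          rw [sum_add_distrib, mul_add, mul_sum (a := B)]
      _ ≤ _ := by
          apply add_le_add le_rfl
          have h9 : B * ∑ x ∈ Ioc Y W, (1 / (x : ℝ)) * (1 / (x : ℝ)) ≤ B :=
            (mul_le_mul_of_nonneg_left (sum_sq_le Y W hY) hB0).trans (mul_one B).le
          rw [one_div, inv_mul_le_iff₀ hlog0]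
          have h10 : ε / 2 * (2 * B / ε + 1) ≤ ε / 2 * Real.log ((W : ℝ) / Y) :=
            mul_le_mul_of_nonneg_left hlog (by positivity)
          have h11 : ε / 2 * (2 * B / ε + 1) = B + ε / 2 := by
            field_simp
          have h12 : Real.log ((W : ℝ) / Y) * (ε / 2) = ε / 2 * Real.log ((W : ℝ) / Y) := mul_comm _ _
          linarith
  linarith

/-- complex means over `1 ≤ n ≤ x` -/
noncomputable def cI (f : ℕ → ℂ) (x : ℕ) : ℂ := (1 / (x : ℂ)) * ∑ n ∈ Icc 1 x, f n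

lemma cI_cm {f : ℕ → ℂ} (hf : ∀ n, ‖f n‖ ≤ 1) (x : ℕ) (hx : 1 ≤ x) : ‖cI f x - cm f x‖ ≤ 2 * (1 / (x : ℝ)) := by
  have hx0 : (0 : ℝ) < x := by exact_mod_cast hx
  have h1 : ∑ n ∈ Icc 1 x, f n = ∑ n ∈ range x, f (n + 1) := by
    rw [range_eq_Ico, sum_Ico_add' f 0 x 1]
    apply sum_congr _ (fun _ _ => rfl)
    ext n
    simp only [mem_Icc, mem_Ico]
    omega
  have g1 := sum_range_succ f x
  have g2 := sum_range_succ' f x
  have h2 : cI f x - cm f x = (1 / (x : ℂ)) * (f x - f 0) := by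
    unfold cI cm
    rw [h1]
    have : ∑ n ∈ range x, f (n + 1) = ∑ n ∈ range x, f n + (f x - f 0) := by
      linear_combination g1 - g2
    rw [this]
    ring
  rw [h2, norm_mul]
  have e : ‖(1 / (x : ℂ))‖ = 1 / (x : ℝ) := by
    rw [norm_div, norm_one, Complex.norm_natCast]
  rw [e, mul_comm]
  apply mul_le_mul_of_nonneg_right _ (by positivity)
  exact (norm_sub_le _ _).trans (by linarith [hf x, hf 0])

lemma cI_bound {f : ℕ → ℂ} (hf : ∀ n, ‖f n‖ ≤ 1) (x : ℕ) : ‖cI f x‖ ≤ 1 := by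
  unfold cI
  rcases Nat.eq_zero_or_pos x with h0 | h0
  · subst h0; simp
  · have hx : (0 : ℝ) < x := by exact_mod_cast h0
    rw [norm_mul]
    have e : ‖(1 / (x : ℂ))‖ = 1 / (x : ℝ) := by
      rw [norm_div, norm_one, Complex.norm_natCast]
    rw [e, one_div, inv_mul_le_iff₀ hx]
    refine (norm_sum_le _ _).trans ((sum_le_sum fun n _ => hf n).trans ?_)
    simp

/-- the deviation from independence -/
noncomputable def gp (V : ℕ → ℂ) (VZ : ℤ → ℂ) {k : ℕ} (W : Fin k → ℤ → ℂ) (d : ℤ) (t : Fin k → ℤ) (x : ℕ) : ℝ :=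
  ‖cI (fun n => VZ (n + d) * ∏ j, W j (n + t j)) x - cI V x * cI (fun n => ∏ j, W j (n + t j)) x‖

lemma gp_le {V : ℕ → ℂ} (hV : ∀ n, ‖V n‖ ≤ 1) {VZ : ℤ → ℂ} (hVZ : ∀ m, ‖VZ m‖ ≤ 1) {k : ℕ} {W : Fin k → ℤ → ℂ}
    (hW : ∀ j m, ‖W j m‖ ≤ 1) (d : ℤ) (t : Fin k → ℤ) (x : ℕ) (hx : 1 ≤ x) :
    gp V VZ W d t x ≤ ‖zc V VZ W d t x‖ + 6 * (1 / (x : ℝ)) := by
  have hP : ∀ n : ℕ, ‖∏ j, W j ((n : ℤ) + t j)‖ ≤ 1 := by
    intro n
    rw [norm_prod]
    exact prod_le_one (fun _ _ => norm_nonneg _) (fun _ _ => hW _ _)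
  have hQ : ∀ n : ℕ, ‖VZ ((n : ℤ) + d) * ∏ j, W j ((n : ℤ) + t j)‖ ≤ 1 := by
    intro n
    rw [norm_mul]
    exact mul_le_one₀ (hVZ _) (norm_nonneg _) (hP n)
  have h1 := cI_cm hQ x hx
  have h2 := cI_cm hV x hx
  have h3 := cI_cm hP x hx
  have h4 := cI_bound hP x
  have h5 : ‖cm V x‖ ≤ 1 := cm_bound hV x
  have e : zc V VZ W d t x = cm (fun n => VZ (n + d) * ∏ j, W j (n + t j)) x -
      cm V x * cm (fun n => ∏ j, W j (n + t j)) x := by
    have e1 : zc V VZ W d t x = (1 / (x : ℂ)) * ∑ n ∈ range x, (VZ (n + d) * ∏ j, W j (n + t j) -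
        cm V x * ∏ j, W j (n + t j)) := by
      unfold zc
      rw [cm]
      congr 1
      apply sum_congr rfl
      intro n _
      ring
    rw [e1, sum_sub_distrib, ← mul_sum, mul_sub]
    unfold cm
    ring
  set A' := cI (fun n => VZ (n + d) * ∏ j, W j (n + t j)) x
  set A := cm (fun n => VZ (n + d) * ∏ j, W j (n + t j)) x
  set c' := cI V x
  set c := cm V x
  set B' := cI (fun n => ∏ j, W j (n + t j)) x
  set B := cm (fun n => ∏ j, W j (n + t j)) x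
  have e2 : A' - c' * B' = (A - c * B) + ((A' - A) - (c' - c) * B' - c * (B' - B)) := by ring
  show ‖A' - c' * B'‖ ≤ _
  rw [e, e2]
  refine (norm_add_le _ _).trans (add_le_add le_rfl ?_)
  refine (norm_sub_le _ _).trans ?_
  have h6 : ‖(A' - A) - (c' - c) * B'‖ ≤ 2 * (1 / (x : ℝ)) + 2 * (1 / (x : ℝ)) := by
    refine (norm_sub_le _ _).trans (add_le_add h1 ?_)
    rw [norm_mul]
    exact (mul_le_of_le_one_right (norm_nonneg _) h4).trans h2
  have h7 : ‖c * (B' - B)‖ ≤ 2 * (1 / (x : ℝ)) := by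
    rw [norm_mul]
    exact (mul_le_of_le_one_left (norm_nonneg _) h5).trans h3
  linarith

/-- the exceptional pairs, averages over `1 ≤ n ≤ x` -/
theorem fin_omegaI (k : ℕ) (ε : ℝ) (hε : 0 < ε) :
    ∃ C : ℝ, 0 < C ∧ ∃ H₀ : ℕ, 1 ≤ H₀ ∧ ∀ a : ℕ → ℂ, (∀ l, ‖a l‖ ≤ 1) →
      ∀ g : Fin k → ℕ → ℂ, (∀ j, Mult1 (g j)) → ∀ A : Fin k → ℕ → ℂ, (∀ j l, ‖A j l‖ ≤ 1) →
      ∀ (VZ : ℤ → ℂ) (G : Fin k → ℤ → ℂ), Ext (fun n => a (cardFactors n)) VZ →
      (∀ j, Ext (fun n => g j n * A j (cardFactors n)) (G j)) → ∀ S : Finset (ℕ × ℤ), DistZ S → ∀ b : Fin k → ℤ,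
      ∃ ω₀ : ℕ, ∀ Y W : ℕ, 1 ≤ Y → ω₀ * Y ≤ W →
        ∑ e ∈ S.filter (fun e => ε < WA (gp (fun n => a (cardFactors n)) VZ G e.2
          (fun j => e.1 * b j)) Y W), 1 / (e.1 : ℝ) ≤ C ∧
        ∀ H : ℕ, H₀ ≤ H → (((S.filter (fun e => ε < WA (gp (fun n => a (cardFactors n)) VZ G e.2
          (fun j => e.1 * b j)) Y W)).filter (fun e => e.1 ≤ H)).card : ℝ) ≤ ε * H := by
  classical
  obtain ⟨C, hC, H₀, hH₀, h⟩ := fin_omega k (ε / 2) (by positivity)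
  refine ⟨C, hC, H₀, hH₀, ?_⟩
  intro a ha g hg A hA VZ G hVZ hG S hS b
  obtain ⟨ω₀, h1⟩ := h a ha g hg A hA VZ G hVZ hG S hS b
  obtain ⟨n₀, h2⟩ := wa_transfer S (fun e x => ‖zc (fun n => a (cardFactors n)) VZ G e.2 (fun j => b j * e.1) x‖)
    (fun e => gp (fun n => a (cardFactors n)) VZ G e.2 (fun j => e.1 * b j)) 6 (by norm_num) (by
      intro e _ x hx
      have h3 := gp_le (V := fun n => a (cardFactors n)) (fun n => ha _) hVZ.b (fun j => (hG j).b) e.2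
        (fun j => e.1 * b j) x hx
      have e1 : (fun j => (e.1 : ℤ) * b j) = fun j => b j * (e.1 : ℤ) := funext fun j => mul_comm _ _
      simp only [e1] at h3 ⊢
      exact h3) ε hε
  refine ⟨max ω₀ n₀, fun Y W hY hW => ?_⟩
  obtain ⟨h4, h5⟩ := h1 Y W hY ((Nat.mul_le_mul_right Y (le_max_left _ _)).trans hW)
  have h6 := h2 Y W hY ((Nat.mul_le_mul_right Y (le_max_right ω₀ n₀)).trans hW)
  have hsub : S.filter (fun e => ε < WA (gp (fun n => a (cardFactors n)) VZ G e.2 (fun j => e.1 * b j)) Y W) ⊆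
      S.filter (fun e => ε / 2 < WA (fun x => ‖zc (fun n => a (cardFactors n)) VZ G e.2
          (fun j => b j * e.1) x‖) Y W) := by
    intro e he
    rw [mem_filter] at he ⊢
    exact ⟨he.1, h6 e he.1 he.2⟩
  constructor
  · exact (sum_le_sum_of_subset_of_nonneg hsub fun _ _ _ => by positivity).trans h4
  · intro H hH
    have h7 := h5 H hH
    have h8 := card_le_card (filter_subset_filter (fun e => e.1 ≤ H) hsub)
    have h9 : (((S.filter (fun e => ε < WA (gp (fun n => a (cardFactors n)) VZ G e.2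
          (fun j => e.1 * b j)) Y W)).filter (fun e => e.1 ≤ H)).card : ℝ) ≤
        (((S.filter (fun e => ε / 2 < WA (fun x => ‖zc (fun n => a (cardFactors n)) VZ G e.2
          (fun j => b j * e.1) x‖) Y W)).filter (fun e => e.1 ≤ H)).card : ℝ) := by
      exact_mod_cast h8
    have h10 : ε / 2 * (H : ℝ) ≤ ε * H := by
      have : (0 : ℝ) ≤ H := by positivity
      nlinarith
    linarith

end Pool.Agent.Y956.CQ
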