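import Pool.Agent.Y956.CQ.FinC

/-!
# Finite form: a centered function of the number of prime factors against dilated tuples
-/

set_option autoImplicit false

namespace Pool.Agent.Y956.CQ

open Finset
open ArithmeticFunction (cardFactors)
open Pool.Agent.TH112.BL (LM)
open Pool.Agent.TH575.CW (QD win theta_QD)
open Pool.Agent.Y956.CB Pool.Agent.Y956.CP

/-- if one of the multiplicative functions is small at many primes, the correlation has mean zero -/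
lemma mean_ncC (μ : LM) {V : ℕ → ℂ} (hV : ∀ n, ‖V n‖ ≤ 1) {VZ : ℤ → ℂ} (hVZ : ∀ m, ‖VZ m‖ ≤ 1) {k : ℕ}
    {g w : Fin k → ℕ → ℂ} (hg : ∀ j, Mult1 (g j)) (hwg : ∀ j n, ‖w j n‖ ≤ ‖g j n‖) {W : Fin k → ℤ → ℂ}
    (hW : ∀ j, Ext (w j) (W j)) (d : ℤ) (t : Fin k → ℤ) (j0 : Fin k) (hj0 : ¬ Conv (g j0)) :
    μ.m (fun x => ‖zc V VZ W d t x‖) ≤ 0 := by
  set T : ℕ := (t j0).natAbs + 1 with hT
  obtain ⟨s, hs⟩ : ∃ s : ℕ, (s : ℤ) = T + t j0 ∧ 1 ≤ s := by
    refine ⟨(T + t j0).toNat, ?_, ?_⟩ <;> omega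
  set U : ℕ → ℝ := ee (fun n => ‖g j0 (1 * n + s)‖) with hU
  have hUb : Bd U := ee_bd ⟨1, fun n => by rw [abs_of_nonneg (norm_nonneg _)]; exact (hg j0).1 _⟩
  have hUm : μ.m U ≤ 0 := mean_zero_ap (eeLM μ) (hg j0) hj0 1 s le_rfl
  have hU2 : Bd (fun x => 2 * U x) := Pool.Agent.TH112.BL.Bd.cmul 2 hUb
  have hWb : Bd (fun x => ‖zc V VZ W d t x‖) :=
    ⟨2, fun x => by
      rw [abs_of_nonneg (norm_nonneg _)]
      exact cm_bound (zc_bound hV hVZ (fun j => (hW j).b) _ _ x) x⟩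
  have hpt : ∀ x : ℕ, 1 ≤ x → ‖zc V VZ W d t x‖ - 2 * U x ≤ 0 + (2 * 2 * T) / x := by
    intro x hx
    have hx0 : (0 : ℝ) < x := by exact_mod_cast hx
    have h1 := cm_shift (zc_bound hV hVZ (fun j => (hW j).b) d t x) T x hx
    have h2 : ‖cm (fun n => (VZ (((n + T : ℕ) : ℤ) + d) - cm V x) * ∏ j, W j (((n + T : ℕ) : ℤ) + t j)) x‖ ≤
        2 * U x := by
      unfold cm
      rw [norm_mul]
      have e : ‖(1 / (x : ℂ))‖ = 1 / (x : ℝ) := by
        rw [norm_div, norm_one, Complex.norm_natCast]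
      rw [e]
      have e2 : 2 * U x = 1 / (x : ℝ) * ∑ n ∈ range x, 2 * ‖g j0 (1 * n + s)‖ := by
        simp only [hU, ee]
        rw [← mul_sum]
        ring
      rw [e2]
      apply mul_le_mul_of_nonneg_left _ (by positivity)
      refine (norm_sum_le _ _).trans (sum_le_sum fun n _ => ?_)
      rw [norm_mul, norm_prod]
      have h30 : ‖1 / (x : ℂ) * ∑ n ∈ range x, V n‖ ≤ 1 := cm_bound hV x
      have h3 : ‖VZ (((n + T : ℕ) : ℤ) + d) - 1 / (x : ℂ) * ∑ n ∈ range x, V n‖ ≤ 2 :=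
        (norm_sub_le _ _).trans (by linarith [hVZ (((n + T : ℕ) : ℤ) + d)])
      have h4 : ∏ j, ‖W j (((n + T : ℕ) : ℤ) + t j)‖ ≤ ‖g j0 (1 * n + s)‖ := by
        rw [← mul_prod_erase _ _ (mem_univ j0)]
        refine (mul_le_of_le_one_right (norm_nonneg _)
          (prod_le_one (fun _ _ => norm_nonneg _) (fun j _ => (hW j).b _))).trans ?_
        have e5 : ((n + T : ℕ) : ℤ) + t j0 = ((1 * n + s : ℕ) : ℤ) := by
          push_cast
          rw [hs.1]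
          ring
        rw [e5, (hW j0).e _ (by omega)]
        exact hwg j0 _
      exact mul_le_mul h3 h4 (prod_nonneg fun _ _ => norm_nonneg _) (by norm_num)
    have h5 : ‖zc V VZ W d t x‖ ≤
        ‖cm (fun n => (VZ (((n + T : ℕ) : ℤ) + d) - cm V x) * ∏ j, W j (((n + T : ℕ) : ℤ) + t j)) x‖ +
          2 * 2 * (T : ℝ) / x := h1
    linarith
  have h4 := lm_small_le μ (hWb.sub' hU2) (K := 2 * 2 * T) (by positivity) 0 hpt
  rw [μ.sub hWb hU2, μ.smul 2 _ hUb] at h4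
  linarith

lemma omega_mul (p n : ℕ) (hp : p.Prime) (hn : ¬ p ∣ n) : cardFactors (p * n) = cardFactors n + 1 := by
  have h0 : n ≠ 0 := fun h => hn (h ▸ dvd_zero p)
  rw [ArithmeticFunction.cardFactors_mul hp.ne_zero h0, ArithmeticFunction.cardFactors_apply_prime hp]
  ring

lemma cov_omega {g : ℕ → ℂ} (hg : Mult1 g) {A : ℕ → ℂ} (hA : ∀ l, ‖A l‖ ≤ 1) :
    Cov g (fun n => g n * A (cardFactors n - 1)) (fun n => g n * A (cardFactors n)) := by
  refine ⟨fun n => ?_, fun n => ?_, fun p n hp hn => ?_, fun p => hg.1 p⟩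
  · rw [norm_mul]
    exact mul_le_one₀ (hg.1 _) (norm_nonneg _) (hA _)
  · rw [norm_mul]
    exact mul_le_one₀ (hg.1 _) (norm_nonneg _) (hA _)
  · have h0 : 1 ≤ n := Nat.pos_of_ne_zero fun h => hn (h ▸ dvd_zero p)
    rw [omega_mul p n hp hn, hg.2 p n hp.one_lt.le h0 ((Nat.Prime.coprime_iff_not_dvd hp).2 hn),
      Nat.add_sub_cancel, mul_assoc]

/-- the exceptional pairs, for a mean over scales -/
theorem rare_omega (k : ℕ) (ε η : ℝ) (hε : 0 < ε) (hη : 0 < η) :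
    ∃ C : ℝ, 0 < C ∧ ∃ H₀ : ℕ, 1 ≤ H₀ ∧ ∀ (μ : LM) (a : ℕ → ℂ), (∀ l, ‖a l‖ ≤ 1) →
      ∀ g : Fin k → ℕ → ℂ, (∀ j, Mult1 (g j)) → ∀ A : Fin k → ℕ → ℂ, (∀ j l, ‖A j l‖ ≤ 1) →
      ∀ (VZ : ℤ → ℂ) (W : Fin k → ℤ → ℂ), Ext (fun n => a (cardFactors n)) VZ →
      (∀ j, Ext (fun n => g j n * A j (cardFactors n)) (W j)) → ∀ S : Finset (ℕ × ℤ), DistZ S → ∀ b : Fin k → ℤ,
      (∀ e ∈ S, ε ≤ μ.m (fun x => ‖zc (fun n => a (cardFactors n)) VZ W e.2 (fun j => b j * e.1) x‖)) →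
      RareZ S C η H₀ := by
  classical
  obtain ⟨C, hC, H₀, hH₀, h⟩ := rare_int k ε η hε hη
  refine ⟨C, hC, H₀, hH₀, ?_⟩
  intro μ a ha g hg A hA VZ W hVZ hW S hS b hbig
  by_cases hcv : ∀ j, Conv (g j)
  · refine h μ g (fun j n => g j n * A j (cardFactors n - 1)) (fun j n => g j n * A j (cardFactors n))
      (fun j => cov_omega (hg j) (hA j)) (dg_small hg hcv) W hW (fun n => a (cardFactors n - 1))
      (fun n => a (cardFactors n)) (fun n => ha _) (fun n => ha _) ?_ ?_ VZ hVZ S hS b hbig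
    · intro p n hp hn
      show a (cardFactors (p * n) - 1) = a (cardFactors n)
      rw [omega_mul p n hp hn, Nat.add_sub_cancel]
    · intro i
      exact orth_omega μ (rip (fun l => a (l - 1)) i) (fun l => rip_b (fun _ => ha _) i l)
  · push Not at hcv
    obtain ⟨j0, hj0⟩ := hcv
    have hS0 : S = ∅ := by
      rw [eq_empty_iff_forall_notMem]
      intro e he
      have h1 := hbig e he
      have h2 := mean_ncC μ (V := fun n => a (cardFactors n)) (fun n => ha _) hVZ.b hg (fun j n => by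
        rw [norm_mul]
        exact mul_le_of_le_one_right (norm_nonneg _) (hA j _)) hW e.2 (fun j => b j * e.1) j0 hj0
      linarith
    subst hS0
    constructor
    · simpa using hC.le
    · intro H _ _
      simp only [card_empty, Nat.cast_zero]
      positivity

/-- the exceptional pairs, finite form -/
theorem fin_omega (k : ℕ) (ε : ℝ) (hε : 0 < ε) :
    ∃ C : ℝ, 0 < C ∧ ∃ H₀ : ℕ, 1 ≤ H₀ ∧ ∀ a : ℕ → ℂ, (∀ l, ‖a l‖ ≤ 1) →
      ∀ g : Fin k → ℕ → ℂ, (∀ j, Mult1 (g j)) → ∀ A : Fin k → ℕ → ℂ, (∀ j l, ‖A j l‖ ≤ 1) →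
      ∀ (VZ : ℤ → ℂ) (G : Fin k → ℤ → ℂ), Ext (fun n => a (cardFactors n)) VZ →
      (∀ j, Ext (fun n => g j n * A j (cardFactors n)) (G j)) → ∀ S : Finset (ℕ × ℤ), DistZ S → ∀ b : Fin k → ℤ,
      ∃ ω₀ : ℕ, ∀ Y W : ℕ, 1 ≤ Y → ω₀ * Y ≤ W →
        ∑ e ∈ S.filter (fun e => ε < WA (fun x => ‖zc (fun n => a (cardFactors n)) VZ G e.2
          (fun j => b j * e.1) x‖) Y W), 1 / (e.1 : ℝ) ≤ C ∧
        ∀ H : ℕ, H₀ ≤ H → (((S.filter (fun e => ε < WA (fun x => ‖zc (fun n => a (cardFactors n)) VZ G e.2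
          (fun j => b j * e.1) x‖) Y W)).filter (fun e => e.1 ≤ H)).card : ℝ) ≤ ε * H := by
  classical
  obtain ⟨C, hC, H₀, hH₀, hrare⟩ := rare_omega k ε ε hε hε
  refine ⟨C, hC, H₀, hH₀, ?_⟩
  intro a ha g hg A hA VZ G hVZ hG S hS b
  have hb : ∀ e : ℕ × ℤ, Bd (fun x => ‖zc (fun n => a (cardFactors n)) VZ G e.2 (fun j => b j * e.1) x‖) := fun e =>
    ⟨2, fun x => by
      rw [abs_of_nonneg (norm_nonneg _)]
      exact cm_bound (zc_bound (fun n => ha _) hVZ.b (fun j => (hG j).b) _ _ x) x⟩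
  apply fin_sets S (fun e x => ‖zc (fun n => a (cardFactors n)) VZ G e.2 (fun j => b j * e.1) x‖) hb ε
    (fun E => ∑ e ∈ E, 1 / (e.1 : ℝ) ≤ C ∧ ∀ H : ℕ, H₀ ≤ H → ((E.filter (fun e => e.1 ≤ H)).card : ℝ) ≤ ε * H)
  intro μ E hES hbig
  have hsubD : ∀ E' : Finset (ℕ × ℤ), E' ⊆ S → DistZ E' := fun E' h =>
    ⟨fun e he => hS.1 e (h he), fun e he e' he' => hS.2 e (h he) e' (h he')⟩
  refine ⟨(hrare μ a ha g hg A hA VZ G hVZ hG E (hsubD E hES) b hbig).1, fun H hH => ?_⟩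
  have h1 := (hrare μ a ha g hg A hA VZ G hVZ hG (E.filter (fun e => e.1 ≤ H))
    (hsubD _ ((filter_subset _ _).trans hES)) b (fun e he => hbig e (filter_subset _ _ he))).2 H hH
  exact h1 fun e he => (mem_filter.1 he).2

end Pool.Agent.Y956.CQ
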