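import Pool.Agent.Y956.CP.All

/-!
# The system of the pairs at a scale, with functions depending on the scale
-/

set_option autoImplicit false

namespace Pool.Agent.Y956.CQ

open Finset
open Pool.Agent.TH112.BL (LM)
open Pool.Agent.TH575.CW (QD win theta_QD)
open Pool.Agent.Y956.CB Pool.Agent.Y956.CP

/-- the shift -/
def T3 (a : ℕ) (z : ℕ × (ℕ × ℕ)) : ℕ × (ℕ × ℕ) := (z.1, T2 a z.2)

/-- the average at the scale -/
noncomputable def av3 (f : ℕ × (ℕ × ℕ) → ℝ) (x : ℕ) : ℝ := av2 (fun z => f (x, z)) x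

lemma av3_bound {f : ℕ × (ℕ × ℕ) → ℝ} {C : ℝ} (h : ∀ z, |f z| ≤ C) (x : ℕ) : |av3 f x| ≤ C :=
  av2_bound (fun z => h (x, z)) x

lemma av3_bd {f : ℕ × (ℕ × ℕ) → ℝ} (h : Bd f) : Bd (av3 f) := by
  obtain ⟨C, hC⟩ := h
  exact ⟨C, av3_bound hC⟩

lemma av3_add (f g : ℕ × (ℕ × ℕ) → ℝ) (x : ℕ) : av3 (f + g) x = av3 f x + av3 g x := by
  unfold av3
  rw [← av2_add]
  rfl

lemma av3_smul (c : ℝ) (f : ℕ × (ℕ × ℕ) → ℝ) (x : ℕ) : av3 (c • f) x = c * av3 f x := by
  unfold av3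
  rw [← av2_smul]
  rfl

lemma T3T (a b : ℕ) (x : ℕ × (ℕ × ℕ)) : T3 a (T3 b x) = T3 (a + b) x := by
  unfold T3
  rw [T2T]

lemma nux_inv1 (μ : LM) (f : ℕ × (ℕ × ℕ) → ℝ) (hf : Bd f) : μ.m (av3 (sh T3 1 f)) = μ.m (av3 f) := by
  obtain ⟨C, hC⟩ := hf
  have hb1 : Bd (av3 (sh T3 1 f)) := av3_bd (Bd.sh T3 1 ⟨C, hC⟩)
  have hb2 : Bd (av3 f) := av3_bd ⟨C, hC⟩
  have h1 := lm_small μ (φ := fun x => av3 (sh T3 1 f) x - av3 f x) (K := 4 * C)
    (hb1.sub' hb2) (by
      intro x hx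
      exact av2_shift (fun z => hC (x, z)) x hx)
  rw [μ.sub hb1 hb2] at h1
  linarith

/-- the system -/
noncomputable def nux (μ : LM) : Sys (ℕ × (ℕ × ℕ)) where
  T := T3
  T0 := fun z => by unfold T3 T2; simp
  TT := T3T
  m := fun f => μ.m (av3 f)
  add := by
    intro f g hf hg
    have : av3 (f + g) = fun x => av3 f x + av3 g x := by funext x; exact av3_add f g x
    rw [this, μ.add _ _ (av3_bd hf) (av3_bd hg)]
  smul := by
    intro c f hf
    have : av3 (c • f) = fun x => c * av3 f x := by funext x; exact av3_smul c f x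
    rw [this, μ.smul _ _ (av3_bd hf)]
  nonneg := by
    intro f hf h
    apply μ.nonneg _ (av3_bd hf)
    intro x
    unfold av3 av2
    exact mul_nonneg (by positivity) (sum_nonneg fun n _ => sum_nonneg fun n' _ => h _)
  one := by
    have h1 : μ.m (av3 1) = μ.m (fun _ => 1) := by
      apply μ.congr_large (av3_bd ⟨1, fun x => by simp⟩) ⟨1, fun _ => by simp⟩ 1
      intro n hn
      have hn0 : (n : ℝ) ≠ 0 := by positivity
      unfold av3 av2
      simp only [Pi.one_apply, sum_const, card_range, nsmul_eq_mul, mul_one]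
      field_simp
    rw [h1, μ.one]
  inv := by
    intro a f hf
    induction a with
    | zero => rfl
    | succ a ih =>
      rw [← ih, ← nux_inv1 μ (sh T3 a f) (hf.sh _ _)]
      congr 1
      congr 1
      rw [sh_sh T3T, add_comm]

end Pool.Agent.Y956.CQ
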