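import Pool.Agent.Y956.CQ.ScaleO
import Pool.Agent.TH575.OM.FinO

/-!
# Orthogonality of the translates of a centered function of the number of prime factors
-/

set_option autoImplicit false

namespace Pool.Agent.Y956.CQ

open Finset
open ArithmeticFunction (cardFactors)
open Pool.Agent.TH112.BL (LM)
open Pool.Agent.TH575.CW (QD win theta_QD)
open Pool.Agent.Y956.CB Pool.Agent.Y956.CP

/-- the discrepancy of the function and its translate -/
noncomputable def Dv (v : ℕ → ℝ) (h N : ℕ) : ℝ :=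
  (∑ n ∈ Icc 1 N, v n * v (n + h)) / N - ((∑ n ∈ Icc 1 N, v n) / N) * ((∑ n ∈ Icc 1 N, v n) / N)

lemma avg_Icc {f : ℕ → ℝ} {C : ℝ} (hf : ∀ n, |f n| ≤ C) (x : ℕ) (hx : 1 ≤ x) :
    |(∑ n ∈ Icc 1 x, f n) / x - ee f x| ≤ 2 * C / x := by
  have hx0 : (0 : ℝ) < x := by exact_mod_cast hx
  unfold ee
  have h1 : ∑ n ∈ Icc 1 x, f n = ∑ n ∈ range x, f (n + 1) := by
    rw [range_eq_Ico, sum_Ico_add' f 0 x 1]
    apply sum_congr _ (fun _ _ => rfl)
    ext n
    simp only [mem_Icc, mem_Ico]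
    omega
  have g1 := sum_range_succ f x
  have g2 := sum_range_succ' f x
  have h2 : (∑ n ∈ Icc 1 x, f n) / x - 1 / (x : ℝ) * ∑ n ∈ range x, f n = (f x - f 0) / x := by
    rw [h1]
    have : ∑ n ∈ range x, f (n + 1) = ∑ n ∈ range x, f n + (f x - f 0) := by linarith
    rw [this]
    ring
  rw [h2, abs_div, abs_of_pos hx0]
  apply div_le_div_of_nonneg_right _ hx0.le
  exact (abs_sub _ _).trans (by linarith [hf x, hf 0])

lemma ee_sh {f : ℕ → ℝ} {C : ℝ} (hf : ∀ n, |f n| ≤ C) (a x : ℕ) (hx : 1 ≤ x) :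
    |ee (fun n => f (n + a)) x - ee f x| ≤ 2 * C * a / x := by
  have hx0 : (0 : ℝ) < x := by exact_mod_cast hx
  have key : ∀ a : ℕ, |∑ n ∈ range x, f (n + a) - ∑ n ∈ range x, f n| ≤ 2 * C * a := by
    intro a
    induction a with
    | zero => simp
    | succ a ih =>
      have g1 := sum_range_succ (fun n => f (n + a)) x
      have g2 := sum_range_succ' (fun n => f (n + a)) x
      have e : ∑ n ∈ range x, f (n + (a + 1)) = ∑ n ∈ range x, f (n + a) + (f (x + a) - f (0 + a)) := by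
        have e1 : ∑ n ∈ range x, f (n + (a + 1)) = ∑ n ∈ range x, f (n + 1 + a) := by
          apply sum_congr rfl
          intro n _
          congr 1
          ring
        rw [e1]
        linarith
      rw [e]
      have e2 : ∑ n ∈ range x, f (n + a) + (f (x + a) - f (0 + a)) - ∑ n ∈ range x, f n =
          (∑ n ∈ range x, f (n + a) - ∑ n ∈ range x, f n) + (f (x + a) - f (0 + a)) := by ring
      rw [e2]
      refine (abs_add_le _ _).trans ?_
      have h3 : |f (x + a) - f (0 + a)| ≤ 2 * C := (abs_sub _ _).trans (by linarith [hf (x + a), hf (0 + a)])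
      push_cast
      linarith
  unfold ee
  rw [← mul_sub, abs_mul, abs_of_nonneg (by positivity : (0 : ℝ) ≤ 1 / (x : ℝ))]
  calc 1 / (x : ℝ) * |∑ n ∈ range x, f (n + a) - ∑ n ∈ range x, f n| ≤ 1 / (x : ℝ) * (2 * C * a) :=
        mul_le_mul_of_nonneg_left (key a) (by positivity)
    _ = 2 * C * a / x := by ring

/-- a bounded function with large values at few scales has a square of mean zero -/
lemma mean_sq_zero (μ : LM) {D : ℕ → ℝ} {B : ℝ} (hD : ∀ x, |D x| ≤ B)
    (h : ∀ ε : ℝ, 0 < ε → ∃ C : ℝ, ∀ J : ℕ, ∃ y0 : ℕ, ∀ y : ℕ, y0 ≤ y →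
      ∑ i ∈ (Icc 1 J).filter (fun i => ε < |D (y / 2 ^ i)|), 1 / (i : ℝ) ≤ C) :
    μ.m (fun x => |D x|) = 0 := by
  classical
  have hB0 : 0 ≤ B := (abs_nonneg _).trans (hD 0)
  have hDb : Bd (fun x => |D x|) := ⟨B, fun x => by rw [abs_abs]; exact hD x⟩
  apply le_antisymm _ (μ.nonneg _ hDb fun x => abs_nonneg _)
  apply le_of_forall_pos_le_add
  intro ε hε
  obtain ⟨C, hC⟩ := h ε hε
  set β : ℕ → ℝ := fun x => if ε < |D x| then 1 else 0 with hβ
  have hβb : Bd β := ⟨1, fun x => by simp only [hβ]; split_ifs <;> simp⟩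
  have hβ0 : 0 ≤ μ.m β := μ.nonneg _ hβb fun x => by simp only [hβ]; split_ifs <;> norm_num
  have hsum : ∀ J : ℕ, (∑ i ∈ Icc 1 J, 1 / (i : ℝ)) * μ.m β ≤ C := by
    intro J
    obtain ⟨y0, hy0⟩ := hC J
    have hb : ∀ i : ℕ, Bd (fun x => β (x / 2 ^ i)) := fun i => hβb.comp (fun x => x / 2 ^ i)
    have h1 : μ.m (fun x => ∑ i ∈ Icc 1 J, (1 / (i : ℝ)) * β (x / 2 ^ i)) =
        (∑ i ∈ Icc 1 J, 1 / (i : ℝ)) * μ.m β := by
      rw [μ.sum _ (fun i _ => Pool.Agent.TH112.BL.Bd.cmul _ (hb i)), sum_mul]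
      apply sum_congr rfl
      intro i _
      rw [μ.smul _ _ (hb i), scale_dil μ (2 ^ i) Nat.one_le_two_pow hβb]
    rw [← h1, ← lm_const μ C]
    apply lm_mono_large μ (Pool.Agent.TH112.BL.Bd.sum _ fun i _ => Pool.Agent.TH112.BL.Bd.cmul _ (hb i))
      ⟨|C|, fun _ => le_rfl⟩ y0
    intro y hy
    refine le_trans (le_of_eq ?_) (hy0 y hy)
    rw [sum_filter]
    apply sum_congr rfl
    intro i _
    simp only [hβ]
    split_ifs <;> simp
  have hβz : μ.m β = 0 := by
    apply le_antisymm _ hβ0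
    by_contra hcon
    push Not at hcon
    obtain ⟨J, hJ⟩ := harm 1 (C / μ.m β)
    rw [div_lt_iff₀ hcon] at hJ
    linarith [hsum J]
  have hb2 : Bd (fun x => ε + B * β x) := ⟨ε + B, fun x => by
    simp only [hβ]
    split_ifs
    · rw [abs_of_nonneg (by linarith)]; linarith
    · rw [abs_of_nonneg (by linarith)]; linarith⟩
  have h2 : μ.m (fun x => |D x|) ≤ μ.m (fun x => ε + B * β x) := by
    apply μ.mono hDb hb2
    intro x
    show |D x| ≤ ε + B * β x
    simp only [hβ]
    split_ifs with hx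
    · have := hD x
      linarith
    · push Not at hx
      linarith
  rw [μ.add _ _ ⟨|ε|, fun _ => le_rfl⟩ (Pool.Agent.TH112.BL.Bd.cmul B hβb), lm_const, μ.smul _ _ hβb, hβz] at h2
  linarith

/-- orthogonality of the translates of the centered kernel -/
theorem orthO (μ : LM) {v : ℕ → ℝ} (hv : ∀ n, |v n| ≤ 1)
    (hD : ∀ h : ℕ, 1 ≤ h → ∀ ε : ℝ, 0 < ε → ∃ C : ℝ, ∀ J : ℕ, ∃ y0 : ℕ, ∀ y : ℕ, y0 ≤ y →
      ∑ i ∈ (Icc 1 J).filter (fun i => ε < |Dv v h (y / 2 ^ i)|), 1 / (i : ℝ) ≤ C) :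
    Orth (nux μ) (cen v) := by
  have hDb : ∀ h N, |Dv v h N| ≤ 2 := by
    intro h N
    unfold Dv
    have hN : ∀ f : ℕ → ℝ, (∀ n, |f n| ≤ 1) → |(∑ n ∈ Icc 1 N, f n) / N| ≤ 1 := by
      intro f hf
      rcases Nat.eq_zero_or_pos N with h0 | h0
      · subst h0; simp
      · have hN0 : (0 : ℝ) < N := by exact_mod_cast h0
        rw [abs_div, abs_of_pos hN0, div_le_one hN0]
        refine (abs_sum_le_sum_abs _ _).trans ((sum_le_sum fun n _ => hf n).trans ?_)
        simp
    have h1 := hN (fun n => v n * v (n + h)) (fun n => by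
      rw [abs_mul]; exact mul_le_one₀ (hv _) (abs_nonneg _) (hv _))
    have h2 := hN v hv
    refine (abs_sub _ _).trans ?_
    rw [abs_mul]
    nlinarith [abs_nonneg ((∑ n ∈ Icc 1 N, v n) / (N : ℝ))]
  have key : ∀ u h : ℕ, 1 ≤ h → (nux μ).m (sh T3 u (cen v) * sh T3 (u + h) (cen v)) = 0 := by
    intro u h hh
    set F : ℕ → ℕ → ℝ := fun x n => (v (n + u) - ee v x) * (v (n + (u + h)) - ee v x) with hF
    have e1 : ∀ x, av3 (sh T3 u (cen v) * sh T3 (u + h) (cen v)) x = (1 / 16) * (ee (F x) x) ^ 2 := by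
      intro x
      rw [← av2_ten, ← av2_smul]
      unfold av3
      congr 1
      funext z
      simp only [Pi.mul_apply, Pi.smul_apply, smul_eq_mul, sh, T3, T2, cen, ten, hF]
      ring
    have hv2 : ∀ a b n, |v (n + a) * v (n + b)| ≤ 1 := fun a b n => by
      rw [abs_mul]; exact mul_le_one₀ (hv _) (abs_nonneg _) (hv _)
    have h2 : ∀ x : ℕ, 1 ≤ x → |ee (F x) x| ≤ |Dv v h x| + (4 * u + 2 * (u + h) + 8) / x := by
      intro x hx
      have hx0 : (0 : ℝ) < x := by exact_mod_cast hx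
      have hcx : |ee v x| ≤ 1 := ee_bound hv x
      have g0 : ee (F x) x = ee (fun n => v (n + u) * v (n + (u + h))) x - ee v x * ee (fun n => v (n + u)) x -
          ee v x * ee (fun n => v (n + (u + h))) x + ee v x * ee v x := by
        have g : F x = fun n => (v (n + u) * v (n + (u + h)) - ee v x * v (n + u)) -
            (ee v x * v (n + (u + h)) - ee v x * ee v x) := by
          funext n
          simp only [hF]
          ring
        rw [g, ee_sub, ee_sub, ee_sub, ee_smul, ee_smul]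
        have g2 : ee (fun _ : ℕ => ee v x * ee v x) x = ee v x * ee v x := by
          show 1 / (x : ℝ) * ∑ _n ∈ range x, ee v x * ee v x = _
          rw [sum_const, card_range, nsmul_eq_mul]
          field_simp
        rw [g2]
        ring
      have g1 := ee_sh (f := v) (C := 1) hv u x hx
      have g2 := ee_sh (f := v) (C := 1) hv (u + h) x hx
      have g3 := ee_sh (f := fun n => v (n + 0) * v (n + h)) (C := 1) (hv2 0 h) u x hx
      have g3' : (fun n => v (n + u + 0) * v (n + u + h)) = (fun n => v (n + u) * v (n + (u + h))) := by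
        funext n
        rw [add_zero, add_assoc n u h]
      have g4 := avg_Icc (f := fun n => v (n + 0) * v (n + h)) (C := 1) (hv2 0 h) x hx
      have g5 := avg_Icc (f := v) (C := 1) hv x hx
      simp only [g3'] at g3
      simp only [add_zero] at g3 g4
      set A := ee (fun n => v (n + u) * v (n + (u + h))) x
      set A0 := ee (fun n => v n * v (n + h)) x
      set c := ee v x
      set b1 := ee (fun n => v (n + u)) x
      set b2 := ee (fun n => v (n + (u + h))) x
      set I1 := (∑ n ∈ Icc 1 x, v n * v (n + h)) / (x : ℝ)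
      set I2 := (∑ n ∈ Icc 1 x, v n) / (x : ℝ)
      have hI2 : |I2| ≤ 1 := by
        show |(∑ n ∈ Icc 1 x, v n) / (x : ℝ)| ≤ 1
        rw [abs_div, abs_of_pos hx0, div_le_one hx0]
        refine (abs_sum_le_sum_abs _ _).trans ((sum_le_sum fun n _ => hv n).trans ?_)
        simp
      have hDv : Dv v h x = I1 - I2 * I2 := rfl
      rw [g0, hDv]
      have k0 : A - c * b1 - c * b2 + c * c = (I1 - I2 * I2) + ((A - A0) - (I1 - A0) - c * (b1 - c) -
          c * (b2 - c) + (I2 - c) * (I2 + c)) := by ring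
      rw [k0]
      refine (abs_add_le _ _).trans (add_le_add le_rfl ?_)
      have k1 : |c * (b1 - c)| ≤ 2 * 1 * u / x := by
        rw [abs_mul]
        calc |c| * |b1 - c| ≤ 1 * (2 * 1 * u / x) := mul_le_mul hcx g1 (abs_nonneg _) zero_le_one
          _ = _ := one_mul _
      have k2 : |c * (b2 - c)| ≤ 2 * 1 * ((u + h : ℕ) : ℝ) / x := by
        rw [abs_mul]
        calc |c| * |b2 - c| ≤ 1 * (2 * 1 * ((u + h : ℕ) : ℝ) / x) := mul_le_mul hcx g2 (abs_nonneg _) zero_le_one
          _ = _ := one_mul _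
      have k3 : |(I2 - c) * (I2 + c)| ≤ 2 * 1 / x * 2 := by
        rw [abs_mul]
        exact mul_le_mul g5 ((abs_add_le _ _).trans (by linarith)) (abs_nonneg _) (by positivity)
      have k4 : |(A - A0) - (I1 - A0) - c * (b1 - c) - c * (b2 - c) + (I2 - c) * (I2 + c)| ≤
          |A - A0| + |I1 - A0| + |c * (b1 - c)| + |c * (b2 - c)| + |(I2 - c) * (I2 + c)| := by
        have m1 := abs_add_le ((A - A0) - (I1 - A0) - c * (b1 - c) - c * (b2 - c)) ((I2 - c) * (I2 + c))
        have m2 := abs_sub ((A - A0) - (I1 - A0) - c * (b1 - c)) (c * (b2 - c))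
        have m3 := abs_sub ((A - A0) - (I1 - A0)) (c * (b1 - c))
        have m4 := abs_sub (A - A0) (I1 - A0)
        linarith
      refine k4.trans ?_
      have k5 : (4 * (u : ℝ) + 2 * (u + h) + 8) / x = 2 * 1 * u / x + 2 * 1 / x + 2 * 1 * u / x +
          2 * 1 * (((u + h : ℕ) : ℝ)) / x + 2 * 1 / x * 2 + 2 / x := by
        push_cast
        ring
      have k6 : 0 ≤ 2 / (x : ℝ) := by positivity
      rw [k5]
      linarith
    have hz := mean_sq_zero μ (hDb h) (hD h hh)
    have hDvb : Bd (fun x => |Dv v h x|) := ⟨2, fun x => by rw [abs_abs]; exact hDb h x⟩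
    have hFb : ∀ x, |ee (F x) x| ≤ 4 := by
      intro x
      apply ee_bound
      intro n
      simp only [hF]
      rw [abs_mul]
      calc |v (n + u) - ee v x| * |v (n + (u + h)) - ee v x| ≤ 2 * 2 :=
            mul_le_mul (sub2 (hv _) (ee_bound hv _)) (sub2 (hv _) (ee_bound hv _)) (abs_nonneg _) (by norm_num)
        _ = 4 := by norm_num
    show μ.m (av3 (sh T3 u (cen v) * sh T3 (u + h) (cen v))) = 0
    have e2 : av3 (sh T3 u (cen v) * sh T3 (u + h) (cen v)) = fun x => (1 / 16) * (ee (F x) x) ^ 2 := funext e1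
    rw [e2]
    have hb : Bd (fun x => (1 / 16) * (ee (F x) x) ^ 2) := ⟨1, fun x => by
      have := hFb x
      show |(1 / 16) * (ee (F x) x) ^ 2| ≤ 1
      rw [abs_of_nonneg (by positivity), ← sq_abs]
      nlinarith [abs_nonneg (ee (F x) x)]⟩
    apply le_antisymm _ (μ.nonneg _ hb fun x => by positivity)
    have h3 : μ.m (fun x => (1 / 16) * (ee (F x) x) ^ 2 - |Dv v h x|) ≤ 0 := by
      apply lm_small_le μ (K := (4 * u + 2 * (u + h) + 8)) (hb.sub' hDvb) (by positivity)
      intro x hx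
      have k1 := h2 x hx
      have k2 := hFb x
      have k3 : (1 / 16) * (ee (F x) x) ^ 2 ≤ |ee (F x) x| := by
        rw [← sq_abs]
        nlinarith [abs_nonneg (ee (F x) x)]
      linarith
    rw [μ.sub hb hDvb, hz] at h3
    linarith
  intro u u' hne
  rcases Nat.lt_or_gt_of_ne hne with h | h
  · obtain ⟨d, rfl⟩ : ∃ d, u' = u + d := ⟨u' - u, by omega⟩
    exact key u d (by omega)
  · obtain ⟨d, rfl⟩ : ∃ d, u = u' + d := ⟨u - u', by omega⟩
    rw [mul_comm]
    exact key u' d (by omega)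

/-- the translates of the centered function `a(Ω(n))` are orthogonal -/
theorem orth_omega (μ : LM) (a : ℕ → ℝ) (ha : ∀ l, |a l| ≤ 1) :
    Orth (nux μ) (cen (fun n => a (cardFactors n))) := by
  apply orthO μ (fun n => ha _)
  intro h hh ε hε
  obtain ⟨C, _, hC⟩ := Pool.Agent.TH575.OM.mainR h hh ε hε
  refine ⟨C, fun J => ?_⟩
  obtain ⟨y0, hy0⟩ := hC J
  exact ⟨y0, fun y hy => hy0 y hy a a ha ha⟩

end Pool.Agent.Y956.CQ
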