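import Pool.Agent.Y956.CQ.OrthO
import Pool.Agent.Y956.CP.Nat2

/-!
# The exceptional pairs are rare: a centered function against dilated tuples
-/

set_option autoImplicit false

namespace Pool.Agent.Y956.CQ

open Finset
open ArithmeticFunction (cardFactors)
open Pool.Agent.TH112.BL (LM)
open Pool.Agent.TH575.CW (QD win theta_QD)
open Pool.Agent.Y956.CB Pool.Agent.Y956.CP

/-- a function and its partner for the dilates by primes -/
structure Cov (γ : ℕ → ℂ) (w' w : ℕ → ℂ) : Prop where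
  b' : ∀ n, ‖w' n‖ ≤ 1
  b : ∀ n, ‖w n‖ ≤ 1
  r : ∀ p n, p.Prime → ¬ p ∣ n → w' (p * n) = γ p * w n
  c : ∀ p, ‖γ p‖ ≤ 1

lemma rip_b {w : ℕ → ℂ} (hw : ∀ n, ‖w n‖ ≤ 1) (i : Bool) (n : ℕ) : |rip w i n| ≤ 1 := by
  unfold rip
  split_ifs
  · exact (Complex.abs_re_le_norm _).trans (hw n)
  · exact (Complex.abs_im_le_norm _).trans (hw n)

lemma avk_rip (w : ℕ → ℂ) (n m : ℕ) : avk (rip w) (n, m) = (1 / 2) * (w n * (starRingEnd ℂ) (w m)).re := by
  unfold avk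
  simp only [Pi.smul_apply, smul_eq_mul, Fintype.sum_bool, Complex.mul_re,
    Complex.conj_re, Complex.conj_im, Fintype.card_bool]
  show 1 / ((2 : ℕ) : ℝ) * (ten (rip w true) (n, m) + ten (rip w false) (n, m)) = _
  simp only [ten, rip, if_true]
  simp

lemma Cov.kerP {γ w' w : ℕ → ℂ} (h : Cov γ w' w) : KerP (fun p => 1 - ‖γ p‖ ^ 2) (avk (rip w')) (avk (rip w)) := by
  refine ⟨avk1 _ (rip_b h.b'), avk1 _ (rip_b h.b), ?_⟩
  intro p n m hp hn hm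
  rw [avk_rip, avk_rip, h.r p n hp hn, h.r p m hp hm]
  have e1 : γ p * w n * (starRingEnd ℂ) (γ p * w m) = ((‖γ p‖ ^ 2 : ℝ) : ℂ) * (w n * (starRingEnd ℂ) (w m)) := by
    rw [map_mul]
    have e2 : γ p * (starRingEnd ℂ) (γ p) = ((‖γ p‖ ^ 2 : ℝ) : ℂ) := by
      rw [Complex.mul_conj, Complex.normSq_eq_norm_sq]
    rw [← e2]
    ring
  rw [e1, Complex.re_ofReal_mul]
  have h1 : |(w n * (starRingEnd ℂ) (w m)).re| ≤ 1 := by
    refine (Complex.abs_re_le_norm _).trans ?_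
    rw [norm_mul, RCLike.norm_conj]
    exact mul_le_one₀ (h.b n) (norm_nonneg _) (h.b m)
  have h2 : 0 ≤ 1 - ‖γ p‖ ^ 2 := by
    have := h.c p
    have h0 := norm_nonneg (γ p)
    nlinarith
  set X := (w n * (starRingEnd ℂ) (w m)).re
  have e3 : 1 / 2 * (‖γ p‖ ^ 2 * X) - 1 / 2 * X = -((1 / 2) * ((1 - ‖γ p‖ ^ 2) * X)) := by ring
  show |1 / 2 * (‖γ p‖ ^ 2 * X) - 1 / 2 * X| ≤ 1 - ‖γ p‖ ^ 2
  rw [e3, abs_neg, abs_mul, abs_mul, abs_of_nonneg h2, abs_of_nonneg (by norm_num : (0 : ℝ) ≤ 1 / 2)]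
  nlinarith [mul_le_mul_of_nonneg_left h1 h2]

lemma KerP.mono {d d' : ℕ → ℝ} {G' G : ℕ × ℕ → ℝ} (h : KerP d G' G) (hd : ∀ p, d p ≤ d' p) : KerP d' G' G :=
  ⟨h.b', h.b, fun p n m hp hn hm => (h.inv p n m hp hn hm).trans (hd p)⟩

/-- the correlation with a centered function -/
noncomputable def cf (v : ℕ → ℝ) {k : ℕ} (u : Fin k → ℕ → ℝ) (D : ℕ) (t : Fin k → ℕ) (x : ℕ) : ℝ :=
  ee (fun n => (v (n + D) - ee v x) * ∏ j, u j (n + t j)) x

lemma cf1 {v : ℕ → ℝ} (hv : ∀ n, |v n| ≤ 1) {k : ℕ} {u : Fin k → ℕ → ℝ} (hu : ∀ j n, |u j n| ≤ 1) (D : ℕ)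
    (t : Fin k → ℕ) (x : ℕ) : |cf v u D t x| ≤ 2 := by
  apply ee_bound
  intro n
  rw [abs_mul, abs_prod]
  calc |v (n + D) - ee v x| * ∏ j, |u j (n + t j)| ≤ 2 * 1 :=
        mul_le_mul (sub2 (hv _) (ee_bound hv _)) (prod_le_one (fun _ _ => abs_nonneg _) (fun _ _ => hu _ _))
          (by positivity) (by norm_num)
    _ = 2 := by norm_num

/-- domination by the kernels -/
lemma cf_dom {v : ℕ → ℝ} (hv : ∀ n, |v n| ≤ 1) {k : ℕ} {w : Fin k → ℕ → ℂ} (hw : ∀ j n, ‖w j n‖ ≤ 1)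
    (σ : Fin k → Bool) (D : ℕ) (t : Fin k → ℕ) (x : ℕ) :
    (1 / 4) * (1 / 2) ^ k * (cf v (fun j => rip (w j) (σ j)) D t x) ^ 2 ≤
      av2 (PG T2 (gx v (fun j => avk (rip (w j))) x) (Fin.cons D t)) x := by
  classical
  set c : ℝ := ee v x with hc
  set f0 : ℕ → ℝ := fun n => v (n + D) - c with hf0
  have hf0b : Bd f0 := ⟨2, fun n => sub2 (hv _) (ee_bound hv _)⟩
  set FF : Fin k → ℕ × ℕ → ℝ := fun j => sh T2 (t j) (avk (rip (w j))) with hFF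
  set ff : Fin k → ℕ × ℕ → ℝ := fun j => sh T2 (t j) ((1 / 2 : ℝ) • ten (rip (w j) (σ j))) with hff
  have h1 : ∀ j ∈ (univ : Finset (Fin k)), Pos (FF j - ff j) := by
    intro j _
    have h := (avk_dom (rip (w j)) (rip_b (hw j)) (σ j)).sh' (t j)
    have hc2 : (1 / (Fintype.card Bool : ℝ)) = 1 / 2 := by simp
    rw [hc2] at h
    exact h
  have h2 : ∀ j ∈ (univ : Finset (Fin k)), Pos (ff j) := by
    intro j _
    exact ((Pos.of_ten (Bd.of1 (rip_b (hw j) (σ j)))).smul (by norm_num)).sh' _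
  obtain ⟨h3, h4⟩ := Pos.dom_prod univ FF ff h1 h2
  have hP0 : Pos ((1 / 4 : ℝ) • ten f0) := (Pos.of_ten hf0b).smul (by norm_num)
  have h5 : Pos (((1 / 4 : ℝ) • ten f0) * (∏ j, FF j - ∏ j, ff j)) := hP0.mul h3
  have e1 : PG T2 (gx v (fun j => avk (rip (w j))) x) (Fin.cons D t) = ((1 / 4 : ℝ) • ten f0) * ∏ j, FF j := by
    funext z
    rw [Pool.Agent.Y956.CP.PG_apply, Fin.prod_univ_succ, Pi.mul_apply, Finset.prod_apply]
    congr 1
    simp only [Fin.cons_zero, gx, cen, T2, Pi.smul_apply, smul_eq_mul, ten, hf0, hc]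
    ring
  have e2 : ((1 / 4 : ℝ) • ten f0) * ∏ j, ff j =
      ((1 / 4) * (1 / 2) ^ k : ℝ) • ten (fun n => f0 n * ∏ j, rip (w j) (σ j) (n + t j)) := by
    funext z
    rw [Pi.mul_apply, Finset.prod_apply]
    simp only [hff, sh, T2, Pi.smul_apply, smul_eq_mul, ten]
    have e3 : ∏ j : Fin k, (1 / 2 : ℝ) * (rip (w j) (σ j) (z.1 + t j) * rip (w j) (σ j) (z.2 + t j)) =
        (1 / 2) ^ k * ((∏ j, rip (w j) (σ j) (z.1 + t j)) * ∏ j, rip (w j) (σ j) (z.2 + t j)) := by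
      rw [prod_mul_distrib, prod_mul_distrib, prod_const, card_univ, Fintype.card_fin]
    rw [e3]
    ring
  have h6 := Pos.av h5 x
  rw [mul_sub, e2, ← e1] at h6
  have h7 : ∀ A B : ℕ × ℕ → ℝ, av2 (A - B) x = av2 A x - av2 B x := fun A B => av2_sub A B x
  rw [h7, av2_smul, av2_ten] at h6
  have e4 : ee (fun n => f0 n * ∏ j, rip (w j) (σ j) (n + t j)) x = cf v (fun j => rip (w j) (σ j)) D t x := rfl
  rw [e4] at h6
  linarith

/-- the exceptional pairs are rare -/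
theorem rare_cf (k : ℕ) (ε η : ℝ) (hε : 0 < ε) (hη : 0 < η) :
    ∃ C : ℝ, 0 < C ∧ ∃ H₀ : ℕ, 1 ≤ H₀ ∧ ∀ (μ : LM) (γ w' w : Fin k → ℕ → ℂ),
      (∀ j, Cov (γ j) (w' j) (w j)) → SmallD (fun p => ∑ j, (1 - ‖γ j p‖ ^ 2)) →
      ∀ v' v : ℕ → ℝ, (∀ n, |v' n| ≤ 1) → (∀ n, |v n| ≤ 1) → (∀ p n, p.Prime → ¬ p ∣ n → v' (p * n) = v n) →
      Orth (nux μ) (cen v') → ∀ E : Finset (ℕ × ℕ), Pool.Agent.Y956.CP.Dist E → ∀ (a : Fin k → ℕ) (σ : Fin k → Bool),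
      (∀ e ∈ E, ε ≤ μ.m (fun x => |cf v (fun j => rip (w j) (σ j)) e.2 (fun j => a j * e.1) x|)) →
      Rare E C η H₀ := by
  obtain ⟨C, hC, H₀, hH₀, hcore⟩ := coreAQ k ((1 / 4) * (1 / 2) ^ k * ε ^ 2) η (by positivity) hη
  refine ⟨C, hC, H₀, hH₀, fun μ γ w' w hw hds v' v hv' hv hvv oK E hED a σ hbig => ?_⟩
  set d : ℕ → ℝ := fun p => ∑ j, (1 - ‖γ j p‖ ^ 2) with hd
  have hG : ∀ j, KerP d (avk (rip (w' j))) (avk (rip (w j))) := by
    intro j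
    refine (hw j).kerP.mono fun p => ?_
    refine single_le_sum (f := fun j => 1 - ‖γ j p‖ ^ 2) (fun i _ => ?_) (mem_univ j)
    have h1 := (hw i).c p
    have h0 := norm_nonneg (γ i p)
    show 0 ≤ 1 - ‖γ i p‖ ^ 2
    nlinarith
  have lG : ∀ j, Loc (avk (rip (w' j))) := fun j => avk_loc _ (rip_b (hw j).b')
  have pG : ∀ j, Pos (avk (rip (w' j))) := fun j => avk_pos _ (rip_b (hw j).b')
  set t : ℕ × ℕ → Fin (k + 1) → ℕ := fun e => Fin.cons e.2 (fun j => a j * e.1) with ht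
  set B : ℕ := ∑ e ∈ E, ∑ j, t e j with hB
  have htB : ∀ e ∈ E, ∀ j, t e j ≤ B := by
    intro e he j
    have h1 : t e j ≤ ∑ j, t e j := single_le_sum (f := fun j => t e j) (fun _ _ => Nat.zero_le _) (mem_univ j)
    have h2 : ∑ j, t e j ≤ B := single_le_sum (f := fun e => ∑ j, t e j) (fun _ _ => Nat.zero_le _) he
    exact h1.trans h2
  set φ : ℕ × ℕ → ℝ := fun e => (nux μ).m (PG T3 (g3 v (fun j => avk (rip (w j)))) (t e)) with hφ
  have hsQ : ScaleQ (nux μ) (Fin.cons (cen v') (fun j => lft (avk (rip (w' j)))) : Fin (k + 1) → _ → ℝ) E t φ := by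
    intro δ hδ
    obtain ⟨C', hC', i0, hi0, h⟩ := scaleO μ hv' hv hvv d hds (fun j => avk (rip (w' j)))
      (fun j => avk (rip (w j))) hG lG B δ hδ
    exact ⟨C', hC', i0, hi0, fun J e he => h J (t e) (htB e he)⟩
  have hnP : NonnegP (nux μ) (Fin.cons (cen v') (fun j => lft (avk (rip (w' j)))) : Fin (k + 1) → _ → ℝ) := by
    intro τ
    show 0 ≤ μ.m (av3 (PG T3 (g3 v' (fun j => avk (rip (w' j)))) τ))
    have hg1 : ∀ x z, |PG T2 (gx v' (fun j => avk (rip (w' j))) x) τ z| ≤ 1 := fun x z =>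
      Pool.Agent.Y956.CP.PG1 T2 (gx1 hv' (fun j => avk1 _ (rip_b (hw j).b')) x) τ z
    have e1 : av3 (PG T3 (g3 v' (fun j => avk (rip (w' j)))) τ) =
        fun x => av2 (PG T2 (gx v' (fun j => avk (rip (w' j))) x) τ) x := by
      funext x
      exact av3_PG v' _ τ x
    rw [e1]
    apply μ.nonneg _ ⟨1, fun x => av2_bound (hg1 x) x⟩
    intro x
    apply Pos.av
    apply pg_pos
    intro j
    refine Fin.cases ?_ (fun j => ?_) j
    · show Pos (fun z => cen v' (x, z))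
      have e2 : (fun z => cen v' (x, z)) = (1 / 4 : ℝ) • ten (fun n => v' n - ee v' x) := by
        funext z
        simp only [cen, Pi.smul_apply, smul_eq_mul, ten]
        ring
      rw [e2]
      exact (Pos.of_ten ⟨2, fun n => sub2 (hv' _) (ee_bound hv' _)⟩).smul (by norm_num)
    · exact pG j
  apply hcore E hED.1 hED.2 (ℕ × (ℕ × ℕ)) (nux μ) (cen v') (fun j => lft (avk (rip (w' j)))) (cen1 hv')
    (fun j z => (hG j).b' z.2) oK hnP a φ hsQ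
  intro e he
  have hcb : Bd (cf v (fun j => rip (w j) (σ j)) e.2 (fun j => a j * e.1)) :=
    ⟨2, fun x => cf1 hv (fun j => rip_b (hw j).b (σ j)) _ _ x⟩
  have h1 := sq_mean μ hcb hε (hbig e he)
  have hsq : Bd (fun x => (cf v (fun j => rip (w j) (σ j)) e.2 (fun j => a j * e.1) x) ^ 2) := sq_bd hcb
  have hg1 : ∀ x z, |PG T2 (gx v (fun j => avk (rip (w j))) x) (t e) z| ≤ 1 := fun x z =>
    Pool.Agent.Y956.CP.PG1 T2 (gx1 hv (fun j => avk1 _ (rip_b (hw j).b)) x) (t e) z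
  have h2 : (1 / 4) * (1 / 2) ^ k * μ.m (fun x => (cf v (fun j => rip (w j) (σ j)) e.2 (fun j => a j * e.1) x) ^ 2) ≤
      μ.m (fun x => av2 (PG T2 (gx v (fun j => avk (rip (w j))) x) (t e)) x) := by
    rw [← μ.smul _ _ hsq]
    apply μ.mono (Pool.Agent.TH112.BL.Bd.cmul _ hsq) ⟨1, fun x => av2_bound (hg1 x) x⟩
    intro x
    exact cf_dom hv (fun j => (hw j).b) σ e.2 (fun j => a j * e.1) x
  have e1 : φ e = μ.m (fun x => av2 (PG T2 (gx v (fun j => avk (rip (w j))) x) (t e)) x) := by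
    show μ.m (av3 _) = _
    congr 1
    funext x
    exact av3_PG v _ (t e) x
  rw [e1]
  refine le_trans ?_ h2
  exact mul_le_mul_of_nonneg_left h1 (by positivity)

end Pool.Agent.Y956.CQ
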