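import Pool.Agent.Y956.CQ.Nux
import Pool.Agent.Y956.CQ.CoreQ
import Pool.Agent.Y956.CP.Scd

/-!
# Comparison with the dilates, for a centered function and pairs of kernels
-/

set_option autoImplicit false

namespace Pool.Agent.Y956.CQ

open Finset
open Pool.Agent.TH112.BL (LM)
open Pool.Agent.TH575.CW (QD win theta_QD)
open Pool.Agent.Y956.CB Pool.Agent.Y956.CP Pool.Agent.Y968.CP

/-- a kernel for the dilates and a kernel -/
structure KerP (d : ℕ → ℝ) (G' G : ℕ × ℕ → ℝ) : Prop where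
  b' : ∀ z, |G' z| ≤ 1
  b : ∀ z, |G z| ≤ 1
  inv : ∀ p n m, p.Prime → ¬ p ∣ n → ¬ p ∣ m → |G' (p * n, p * m) - G (n, m)| ≤ d p

/-- the centered kernel of a bounded function, at each scale -/
noncomputable def cen (v : ℕ → ℝ) (z : ℕ × (ℕ × ℕ)) : ℝ := (v z.2.1 - ee v z.1) * (v z.2.2 - ee v z.1) / 4

/-- a kernel which does not depend on the scale -/
def lft (G : ℕ × ℕ → ℝ) (z : ℕ × (ℕ × ℕ)) : ℝ := G z.2

lemma q4 {a b : ℝ} (ha : |a| ≤ 2) (hb : |b| ≤ 2) : |a * b / 4| ≤ 1 := by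
  rw [abs_div, abs_mul, abs_of_pos (by norm_num : (0 : ℝ) < 4), div_le_one (by norm_num)]
  calc |a| * |b| ≤ 2 * 2 := mul_le_mul ha hb (abs_nonneg _) (by norm_num)
    _ = 4 := by norm_num

lemma q4s {a b a' b' η : ℝ} (ha : |a| ≤ 2) (hb' : |b'| ≤ 2) (h1 : |a - a'| ≤ η) (h2 : |b - b'| ≤ η) :
    |a * b / 4 - a' * b' / 4| ≤ η := by
  have e : a * b / 4 - a' * b' / 4 = (a * (b - b') + (a - a') * b') / 4 := by ring
  rw [e, abs_div, abs_of_pos (by norm_num : (0 : ℝ) < 4), div_le_iff₀ (by norm_num)]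
  refine (abs_add_le _ _).trans ?_
  rw [abs_mul, abs_mul]
  have h0 : 0 ≤ η := (abs_nonneg _).trans h1
  have g1 : |a| * |b - b'| ≤ 2 * η := mul_le_mul ha h2 (abs_nonneg _) (by norm_num)
  have g2 : |a - a'| * |b'| ≤ η * 2 := mul_le_mul h1 hb' (abs_nonneg _) h0
  linarith

lemma sub2 {a b : ℝ} (ha : |a| ≤ 1) (hb : |b| ≤ 1) : |a - b| ≤ 2 := (abs_sub _ _).trans (by linarith)

lemma cen1 {v : ℕ → ℝ} (hv : ∀ n, |v n| ≤ 1) (z : ℕ × (ℕ × ℕ)) : |cen v z| ≤ 1 := by
  unfold cen
  exact q4 (sub2 (hv _) (ee_bound hv _)) (sub2 (hv _) (ee_bound hv _))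

/-- approximation of a bounded function by a function with finitely many values -/
lemma disc {v : ℕ → ℝ} (hv : ∀ n, |v n| ≤ 1) (η : ℝ) (hη : 0 < η) : ∃ (A : Type) (_ : Fintype A) (_ : Nonempty A)
    (a : ℕ → A) (val : A → ℝ), (∀ u, |val u| ≤ 1) ∧ ∀ n, |v n - val (a n)| ≤ η := by
  obtain ⟨N, hN⟩ := exists_nat_gt (1 / η)
  have hN0 : (0 : ℝ) < N := lt_trans (by positivity) hN
  set val : Fin (2 * N + 1) → ℝ := fun a => (a : ℕ) / (N : ℝ) - 1 with hval
  have hval1 : ∀ a, |val a| ≤ 1 := by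
    intro a
    have h1 : (((a : ℕ) : ℝ)) ≤ 2 * N := by
      have := a.2
      exact_mod_cast (by omega : (a : ℕ) ≤ 2 * N)
    have h2 : ((a : ℕ) : ℝ) / N ≤ 2 := by rw [div_le_iff₀ hN0]; linarith
    have h3 : 0 ≤ ((a : ℕ) : ℝ) / N := by positivity
    rw [hval, abs_le]
    constructor <;> simp only <;> linarith
  have hfl : ∀ t : ℝ, |t| ≤ 1 → ⌊(t + 1) * N⌋₊ < 2 * N + 1 := by
    intro t ht
    have h1 := (abs_le.1 ht).2
    have h2 : (t + 1) * N ≤ ((2 * N : ℕ) : ℝ) := by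
      push_cast
      nlinarith
    have h3 := Nat.floor_le_of_le h2
    omega
  set a : ℕ → Fin (2 * N + 1) := fun n => ⟨⌊(v n + 1) * N⌋₊, hfl _ (hv n)⟩ with ha
  refine ⟨Fin (2 * N + 1), inferInstance, ⟨0⟩, a, val, hval1, fun n => ?_⟩
  have h1 : 0 ≤ (v n + 1) * N := by
    have := (abs_le.1 (hv n)).1
    apply mul_nonneg _ hN0.le
    linarith
  have h2 := Nat.floor_le h1
  have h3 := Nat.lt_floor_add_one ((v n + 1) * N)
  have h5 : 1 / (N : ℝ) ≤ η := by
    rw [div_le_iff₀ hN0]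
    rw [div_lt_iff₀ hη] at hN
    linarith
  simp only [hval, ha]
  rw [abs_le]
  constructor
  · have : (⌊(v n + 1) * N⌋₊ : ℝ) / N ≤ v n + 1 := by
      rw [div_le_iff₀ hN0]; exact h2
    linarith
  · have : v n + 1 ≤ (⌊(v n + 1) * N⌋₊ : ℝ) / N + 1 / N := by
      rw [← add_div, le_div_iff₀ hN0]; exact h3.le
    linarith

/-- the kernels at a scale -/
noncomputable def gx {k : ℕ} (v : ℕ → ℝ) (G : Fin k → ℕ × ℕ → ℝ) (x : ℕ) : Fin (k + 1) → ℕ × ℕ → ℝ :=
  Fin.cons (fun z => cen v (x, z)) G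

/-- the kernels -/
noncomputable def g3 {k : ℕ} (v : ℕ → ℝ) (G : Fin k → ℕ × ℕ → ℝ) : Fin (k + 1) → ℕ × (ℕ × ℕ) → ℝ :=
  Fin.cons (cen v) (fun j => lft (G j))

lemma av3_PG {k : ℕ} (v : ℕ → ℝ) (G : Fin k → ℕ × ℕ → ℝ) (t : Fin (k + 1) → ℕ) (x : ℕ) :
    av3 (PG T3 (g3 v G) t) x = av2 (PG T2 (gx v G x) t) x := by
  unfold av3
  congr 1
  funext z
  rw [Pool.Agent.Y956.CP.PG_apply, Pool.Agent.Y956.CP.PG_apply]
  apply prod_congr rfl
  intro j _
  refine Fin.cases ?_ (fun j => ?_) j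
  · rfl
  · rfl

lemma gx1 {k : ℕ} {v : ℕ → ℝ} {G : Fin k → ℕ × ℕ → ℝ} (hv : ∀ n, |v n| ≤ 1) (hG : ∀ j z, |G j z| ≤ 1) (x : ℕ)
    (j : Fin (k + 1)) (z : ℕ × ℕ) : |gx v G x j z| ≤ 1 := by
  refine Fin.cases ?_ (fun j => ?_) j
  · exact cen1 hv _
  · exact hG j z

/-- comparison of the means of the function and of its partner -/
lemma mean_cmp {v' v : ℕ → ℝ} (hv' : ∀ n, |v' n| ≤ 1) (hv : ∀ n, |v n| ≤ 1)
    (hvv : ∀ p n, p.Prime → ¬ p ∣ n → v' (p * n) = v n) (p x : ℕ) (hp : p.Prime) (hx : 1 ≤ x) :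
    |p * ee (fun n => if p ∣ n then v' n else 0) x - ee v (x / p)| ≤ 2 / p + p * 4 / x := by
  have h := dil_cmp p hp.one_lt.le v' v hv' hv (fun n => p ∣ n) (fun n hn => hvv p n hp hn) 1 (by
    intro y
    have h1 := count_shift p y 0 hp.pos
    simp only [add_zero] at h1
    linarith) x hx
  refine h.trans (le_of_eq ?_)
  ring

theorem scaleO (μ : LM) {v' v : ℕ → ℝ} (hv' : ∀ n, |v' n| ≤ 1) (hv : ∀ n, |v n| ≤ 1)
    (hvv : ∀ p n, p.Prime → ¬ p ∣ n → v' (p * n) = v n) (d : ℕ → ℝ) (hd : SmallD d) {k : ℕ}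
    (G' G : Fin k → ℕ × ℕ → ℝ) (hG : ∀ j, KerP d (G' j) (G j)) (lG : ∀ j, Loc (G' j)) (B : ℕ) (ε : ℝ) (hε : 0 < ε) :
    ∃ C : ℝ, 0 < C ∧ ∃ i0 : ℕ, 1 ≤ i0 ∧ ∀ J : ℕ, ∀ t : Fin (k + 1) → ℕ, (∀ j, t j ≤ B) →
    ∑ i ∈ Icc i0 J, (1 / (i : ℝ)) * ∑ p ∈ QD i (i + 1), Real.log p / 2 ^ i *
      |(nux μ).m (PG T3 (g3 v' G') (fun j => p * t j)) - (nux μ).m (PG T3 (g3 v G) t)| ≤
        C + ε * ∑ i ∈ Icc i0 J, 1 / (i : ℝ) := by
  obtain ⟨hd0, C₂, hC₂⟩ := hd
  set s : ℕ := k + 1 with hs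
  set κ : ℝ := (s : ℝ) + 1 with hκ
  have hκ0 : 0 < κ := by positivity
  have hκ1 : 1 ≤ κ := by rw [hκ]; have : (0 : ℝ) ≤ s := Nat.cast_nonneg _; linarith
  set η : ℝ := ε / (204 * κ) with hη
  have hη0 : 0 < η := by positivity
  set δ : ℝ := ε / (4 * (4 * κ + 3)) with hδ
  have hδ0 : 0 < δ := by positivity
  choose A fA nA a γ hγ hGγ using fun j => lG j η hη0
  obtain ⟨A0, fA0, nA0, a0, val, hval, hva⟩ := disc hv' η hη0
  have : ∀ j, Fintype (A j) := fA
  have : ∀ j, Nonempty (A j) := nA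
  obtain ⟨i2, hi2⟩ := pow_unbounded_of_one_lt (288 * κ / ε) (one_lt_two (α := ℝ))
  set c : ℕ := 2 * (B + 1) with hc
  set aa : ℕ → A0 × (∀ j, A j) := fun n => (a0 n, fun j => a j n) with haa
  obtain ⟨C, i0, hC, hi0, hall⟩ := all_scaleU μ (A0 × (∀ j, A j)) aa c δ hδ0
  -- the approximations
  set H : ℕ → Fin s → ℕ × ℕ → ℝ := fun x => Fin.cons
    (fun z : ℕ × ℕ => (val (a0 z.1) - ee v' x) * (val (a0 z.2) - ee v' x) / 4)
    (fun j z => γ j (a j z.1) (a j z.2)) with hH
  have hH1 : ∀ x j z, |H x j z| ≤ 1 := by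
    intro x j z
    refine Fin.cases ?_ (fun j => ?_) j
    · exact q4 (sub2 (hval _) (ee_bound hv' _)) (sub2 (hval _) (ee_bound hv' _))
    · exact hγ j _ _
  have hG'1 : ∀ x j z, |gx v' G' x j z| ≤ 1 := fun x => gx1 hv' (fun j z => (hG j).b' z) x
  have hG1 : ∀ x j z, |gx v G x j z| ≤ 1 := fun x => gx1 hv (fun j z => (hG j).b z) x
  have hGH : ∀ x j z, |gx v' G' x j z - H x j z| ≤ η := by
    intro x j z
    refine Fin.cases ?_ (fun j => ?_) j
    · show |(v' z.1 - ee v' x) * (v' z.2 - ee v' x) / 4 -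
        (val (a0 z.1) - ee v' x) * (val (a0 z.2) - ee v' x) / 4| ≤ η
      apply q4s (sub2 (hv' _) (ee_bound hv' _)) (sub2 (hval _) (ee_bound hv' _))
      · have e : v' z.1 - ee v' x - (val (a0 z.1) - ee v' x) = v' z.1 - val (a0 z.1) := by ring
        rw [e]
        exact hva _
      · have e : v' z.2 - ee v' x - (val (a0 z.2) - ee v' x) = v' z.2 - val (a0 z.2) := by ring
        rw [e]
        exact hva _
    · exact hGγ j z
  refine ⟨(36 * κ + 27) * C + 4 * κ * |C₂|, by positivity, max i0 i2, hi0.trans (le_max_left _ _), fun J t ht => ?_⟩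
  obtain ⟨φ, hφ0, hφ1, hφC, hφU⟩ := hall J
  have hφb : ∀ i, Bd (φ i) := fun i => ⟨1, fun x => by rw [abs_of_nonneg (hφ0 i x)]; exact hφ1 i x⟩
  set kp : ℕ → ℕ → ℕ × ℕ → ℝ := fun x p => PG T2 (gx v' G' x) (fun j => p * t j) with hkp
  set kp' : ℕ → ℕ → ℕ × ℕ → ℝ := fun x p => PG T2 (H x) (fun j => p * t j) with hkp'
  set k1 : ℕ → ℕ × ℕ → ℝ := fun x => PG T2 (gx v G x) t with hk1
  have hkp1 : ∀ x p z, |kp x p z| ≤ 1 := fun x p z => PG1 T2 _ _ (hG'1 x) z
  have hkp'1 : ∀ x p z, |kp' x p z| ≤ 1 := fun x p z => PG1 T2 _ _ (hH1 x) z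
  have hk11 : ∀ x z, |k1 x z| ≤ 1 := fun x z => PG1 T2 _ _ (hG1 x) z
  -- the functions of the scale
  have hbp : ∀ p : ℕ, Bd (fun x => av2 (kp x p) x) := fun p => ⟨1, fun x => av2_bound (hkp1 x p) x⟩
  have hb0 : Bd (fun x => av2 (k1 x) x) := ⟨1, fun x => av2_bound (hk11 x) x⟩
  have hb1 : ∀ p : ℕ, Bd (fun x => |av2 (kp x p) x - av2 (k1 (x / p)) (x / p)|) := fun p =>
    ((hbp p).sub' (hb0.comp (fun x => x / p))).abs
  -- the defects of the means
  set δp : ℕ → ℕ → ℝ := fun p x => |ee v' x - ee v (x / p)| with hδp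
  have hδp0 : ∀ p x, 0 ≤ δp p x := fun p x => abs_nonneg _
  -- one scale
  have key : ∀ i ∈ Icc (max i0 i2) J, ∑ p ∈ QD i (i + 1), Real.log p / 2 ^ i *
      |(nux μ).m (PG T3 (g3 v' G') (fun j => p * t j)) - (nux μ).m (PG T3 (g3 v G) t)| ≤
        ε + (36 * κ + 27) * μ.m (φ i) + 4 * κ * ∑ p ∈ QD i (i + 1), Real.log p / 2 ^ i * d p := by
    intro i hi
    rw [mem_Icc] at hi
    have h2i : (0 : ℝ) < 2 ^ i := by positivity
    have hi2' : 288 * κ / ε ≤ 2 ^ i :=
      hi2.le.trans (pow_le_pow_right₀ one_le_two ((le_max_right _ _).trans hi.1))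
    obtain ⟨x1, hx1, hU⟩ := hφU i (mem_Icc.2 ⟨(le_max_left _ _).trans hi.1, hi.2⟩)
    have hW3 := QDw_le i
    -- the defects of the means at a scale
    have hdm : ∀ x : ℕ, x1 ≤ x → 1 ≤ x → ∑ p ∈ QD i (i + 1), Real.log p / 2 ^ i * δp p x ≤
        (δ + 9 * φ i x) + 9 * η + 6 / 2 ^ i + 12 * 2 ^ (i + 1) / x := by
      intro x hx hx0
      have hxr : (0 : ℝ) < x := by exact_mod_cast hx0
      have hx2 : 2 ^ (i + 1) ≤ x := hx1.trans hx
      have hcpos : 0 < c * 2 ^ i := by positivity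
      have hdec := hU x hx (fun _ n => val (a0 n)) (fun _ n => hval _) (by
        intro p hp n n' hw
        have h1 := congrFun hw ⟨0, hcpos⟩
        have h2 : aa (n + 0) = aa (n' + 0) := h1
        rw [add_zero, add_zero] at h2
        have h3 : a0 n = a0 n' := congrArg Prod.fst h2
        show val (a0 n) = val (a0 n')
        rw [h3])
      have h3 : ∀ p ∈ QD i (i + 1), δp p x ≤
          |ee (fun n => val (a0 n)) x - p * ee (fun n => if p ∣ n then val (a0 n) else 0) x| +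
            ((3 * η + 2 / 2 ^ i) + 4 * 2 ^ (i + 1) / x) := by
        intro p hp
        have hpp : p.Prime := (mem_filter.1 hp).2
        have hp1 : 2 ^ i < p := (mem_Ioc.1 (mem_filter.1 hp).1).1
        have hp2 : p ≤ 2 ^ (i + 1) := (mem_Ioc.1 (mem_filter.1 hp).1).2
        have hpr : (0 : ℝ) < p := by exact_mod_cast hpp.pos
        have hp1' : (2 : ℝ) ^ i ≤ p := by exact_mod_cast hp1.le
        have hp2' : (p : ℝ) ≤ 2 ^ (i + 1) := by exact_mod_cast hp2
        have g1 : |ee v' x - ee (fun n => val (a0 n)) x| ≤ η := by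
          rw [← ee_sub]
          exact ee_bound (fun n => hva n) x
        have g2 : |p * ee (fun n => if p ∣ n then val (a0 n) else 0) x -
            p * ee (fun n => if p ∣ n then v' n else 0) x| ≤ 2 * η := by
          rw [← mul_sub, ← ee_sub]
          have e : (fun n => (if p ∣ n then val (a0 n) else 0) - (if p ∣ n then v' n else 0)) =
              (fun n => if p ∣ n then (val (a0 n) - v' n) else 0) := by
            funext n
            split_ifs <;> simp
          rw [e]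
          refine mult_bound p x hpp.pos (hp2.trans hx2) (f := fun n => val (a0 n) - v' n) (C := η) ?_
          intro n _
          rw [abs_sub_comm]
          exact hva n
        have g3 := mean_cmp hv' hv hvv p x hpp hx0
        have g4 : 2 / (p : ℝ) ≤ 2 / 2 ^ i := div_le_div_of_nonneg_left (by norm_num) h2i hp1'
        have g5 : (p : ℝ) * 4 / x ≤ 4 * 2 ^ (i + 1) / x := by
          apply div_le_div_of_nonneg_right _ hxr.le
          linarith
        set u1 := ee v' x
        set u2 := ee (fun n => val (a0 n)) x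
        set u3 := (p : ℝ) * ee (fun n => if p ∣ n then val (a0 n) else 0) x
        set u4 := (p : ℝ) * ee (fun n => if p ∣ n then v' n else 0) x
        set u5 := ee v (x / p)
        have t1 := abs_sub_le u1 u2 u5
        have t2 := abs_sub_le u2 u3 u5
        have t3 := abs_sub_le u3 u4 u5
        show |u1 - u5| ≤ _
        linarith
      refine (sum_le_sum fun p hp => mul_le_mul_of_nonneg_left (h3 p hp) (QDw_nonneg i p hp)).trans ?_
      simp only [mul_add, sum_add_distrib, ← sum_mul] at hdec ⊢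
      have e1 : (∑ p ∈ QD i (i + 1), Real.log p / 2 ^ i) * (3 * η) ≤ 3 * (3 * η) :=
        mul_le_mul_of_nonneg_right hW3 (by positivity)
      have e2 : (∑ p ∈ QD i (i + 1), Real.log p / 2 ^ i) * (2 / 2 ^ i) ≤ 3 * (2 / 2 ^ i) :=
        mul_le_mul_of_nonneg_right hW3 (by positivity)
      have e3 : (∑ p ∈ QD i (i + 1), Real.log p / 2 ^ i) * (4 * 2 ^ (i + 1) / x) ≤ 3 * (4 * 2 ^ (i + 1) / x) :=
        mul_le_mul_of_nonneg_right hW3 (by positivity)
      have e4 : 3 * (4 * 2 ^ (i + 1) / (x : ℝ)) = 12 * 2 ^ (i + 1) / x := by ring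
      have e5 : 3 * (2 / (2 : ℝ) ^ i) = 6 / 2 ^ i := by ring
      linarith
    -- the pointwise bound
    have hpt : ∀ x : ℕ, x1 ≤ x → 1 ≤ x →
        ∑ p ∈ QD i (i + 1), Real.log p / 2 ^ i * |av2 (kp x p) x - av2 (k1 (x / p)) (x / p)| ≤
        (51 * (κ * η) + 72 * κ / 2 ^ i + 4 * κ * ∑ p ∈ QD i (i + 1), Real.log p / 2 ^ i * d p) +
          (4 * κ + 3) * δ + (36 * κ + 27) * φ i x + ((72 * κ + 18) * 2 ^ (i + 1)) / x := by
      intro x hx hx0
      have hxr : (0 : ℝ) < x := by exact_mod_cast hx0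
      have hx2 : 2 ^ (i + 1) ≤ x := hx1.trans hx
      have hdec := dec2 i x (A0 × (∀ j, A j)) aa c (δ + 9 * φ i x) hx2 (hU x hx) (kp' x) (hkp'1 x) (by
        intro p hp n n' m m' hw1 hw2
        have hp2 : p ≤ 2 ^ (i + 1) := (mem_Ioc.1 (mem_filter.1 hp).1).2
        have hn : ∀ t, t < c * 2 ^ i → aa (n + t) = aa (n' + t) := fun t ht => congrFun hw1 ⟨t, ht⟩
        have hm : ∀ t, t < c * 2 ^ i → aa (m + t) = aa (m' + t) := fun t ht => congrFun hw2 ⟨t, ht⟩
        simp only [hkp']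
        rw [Pool.Agent.Y956.CP.PG_apply, Pool.Agent.Y956.CP.PG_apply]
        apply prod_congr rfl
        intro j _
        have hpt' : p * t j < c * 2 ^ i := by
          have h1 : p * t j ≤ 2 ^ (i + 1) * B := Nat.mul_le_mul hp2 (ht j)
          have h2 : 0 < 2 ^ (i + 1) := by positivity
          have hcc : c * 2 ^ i = 2 ^ (i + 1) * B + 2 ^ (i + 1) := by
            rw [hc, pow_succ]; ring
          omega
        have e1 := hn _ hpt'
        have e2 := hm _ hpt'
        refine Fin.cases (motive := fun j => aa (n + p * t j) = aa (n' + p * t j) →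
          aa (m + p * t j) = aa (m' + p * t j) → H x j (T2 (p * t j) (n, m)) = H x j (T2 (p * t j) (n', m')))
          ?_ (fun j => ?_) j e1 e2
        · intro e1 e2
          have f1 : a0 (n + p * t 0) = a0 (n' + p * t 0) := congrArg Prod.fst e1
          have f2 : a0 (m + p * t 0) = a0 (m' + p * t 0) := congrArg Prod.fst e2
          simp only [hH, Fin.cons_zero, T2, f1, f2]
        · intro e1 e2
          have f1 : a j (n + p * t j.succ) = a j (n' + p * t j.succ) := congrFun (congrArg Prod.snd e1) j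
          have f2 : a j (m + p * t j.succ) = a j (m' + p * t j.succ) := congrFun (congrArg Prod.snd e2) j
          simp only [hH, Fin.cons_succ, T2, f1, f2])
      have h3 : ∀ p ∈ QD i (i + 1), |av2 (kp x p) x - av2 (k1 (x / p)) (x / p)| ≤
          |av2 (kp' x p) x - (p : ℝ) ^ 2 * av2 (mu2 p (kp' x p)) x| +
            ((5 * (κ * η) + 16 * κ / 2 ^ i + 4 * κ * d p + 4 * κ * δp p x) + ((6 + 8 * κ) * 2 ^ (i + 1)) / x) := by
        intro p hp
        have hpp : p.Prime := (mem_filter.1 hp).2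
        have hp1 : 2 ^ i < p := (mem_Ioc.1 (mem_filter.1 hp).1).1
        have hp2 : p ≤ 2 ^ (i + 1) := (mem_Ioc.1 (mem_filter.1 hp).1).2
        have hpr : (0 : ℝ) < p := by exact_mod_cast hpp.pos
        have hp1' : (2 : ℝ) ^ i ≤ p := by exact_mod_cast hp1.le
        have hp2' : (p : ℝ) ≤ 2 ^ (i + 1) := by exact_mod_cast hp2
        have hpx : p ≤ x := hp2.trans hx2
        have happ : ∀ z, |kp x p z - kp' x p z| ≤ κ * η := by
          intro z
          refine (PG_approx T2 (gx v' G' x) (H x) (fun j => p * t j) η (hG'1 x) (hH1 x)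
            (fun j z => hGH x j z) z).trans ?_
          exact mul_le_mul_of_nonneg_right (by rw [hκ]; linarith) hη0.le
        have g1 : |av2 (kp x p) x - av2 (kp' x p) x| ≤ κ * η := by
          rw [← av2_sub]
          exact av2_bound happ x
        have g2 : |(p : ℝ) ^ 2 * av2 (mu2 p (kp x p)) x - (p : ℝ) ^ 2 * av2 (mu2 p (kp' x p)) x| ≤
            4 * (κ * η) := by
          rw [← mul_sub, ← av2_sub, ← mu2_sub]
          exact mu2_bound p x hpp.pos hpx happ
        have hDp : 0 ≤ d p + δp p x := add_nonneg (hd0 p) (hδp0 p x)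
        have g3 : |(p : ℝ) ^ 2 * av2 (mu2 p (kp x p)) x - av2 (k1 (x / p)) (x / p)| ≤
            4 * (κ * (d p + δp p x)) + 16 * κ / p + (6 + 8 * κ) * p / x := by
          apply dil_cmp3 p hpp.one_lt.le (kp x p) (k1 (x / p)) (hkp1 x p) (hk11 _)
            (fun n => ∃ j, p ∣ n + t j) (κ * (d p + δp p x)) (mul_nonneg hκ0.le hDp) _ κ _ x hpx
          · intro n m hn hm
            push Not at hn hm
            simp only [hkp, hk1]
            rw [Pool.Agent.Y956.CP.PG_apply, Pool.Agent.Y956.CP.PG_apply]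
            have happ' := prod_approx (univ : Finset (Fin s))
              (fun j => gx v' G' x j (T2 (p * t j) (p * n, p * m))) (fun j => gx v G (x / p) j (T2 (t j) (n, m)))
              (d p + δp p x)
              (fun j => hG'1 x j _) (fun j => hG1 _ j _) (fun j => by
                have e0 : T2 (p * t j) (p * n, p * m) = (p * (n + t j), p * (m + t j)) := by
                  simp only [T2]
                  rw [← mul_add, ← mul_add]
                rw [e0]
                have a1 := hn j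
                have a2 := hm j
                revert a1 a2
                refine Fin.cases (motive := fun j => ¬ p ∣ n + t j → ¬ p ∣ m + t j →
                  |gx v' G' x j (p * (n + t j), p * (m + t j)) - gx v G (x / p) j (T2 (t j) (n, m))| ≤
                    d p + δp p x) ?_ (fun j => ?_) j
                · intro a1 a2
                  show |(v' (p * (n + t 0)) - ee v' x) * (v' (p * (m + t 0)) - ee v' x) / 4 -
                    (v (n + t 0) - ee v (x / p)) * (v (m + t 0) - ee v (x / p)) / 4| ≤ d p + δp p x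
                  rw [hvv p _ hpp a1, hvv p _ hpp a2]
                  have h6 : |(v (n + t 0) - ee v' x) * (v (m + t 0) - ee v' x) / 4 -
                    (v (n + t 0) - ee v (x / p)) * (v (m + t 0) - ee v (x / p)) / 4| ≤ δp p x := by
                    apply q4s (sub2 (hv _) (ee_bound hv' _)) (sub2 (hv _) (ee_bound hv _))
                    · have e : v (n + t 0) - ee v' x - (v (n + t 0) - ee v (x / p)) =
                          -(ee v' x - ee v (x / p)) := by ring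
                      rw [e, abs_neg]
                    · have e : v (m + t 0) - ee v' x - (v (m + t 0) - ee v (x / p)) =
                          -(ee v' x - ee v (x / p)) := by ring
                      rw [e, abs_neg]
                  linarith [hd0 p]
                · intro a1 a2
                  have h6 := (hG j).inv p _ _ hpp a1 a2
                  show |G' j (p * (n + t j.succ), p * (m + t j.succ)) - G j (n + t j.succ, m + t j.succ)| ≤ _
                  linarith [hδp0 p x])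
            rw [card_univ, Fintype.card_fin] at happ'
            refine happ'.trans ?_
            exact mul_le_mul_of_nonneg_right (by rw [hκ]; linarith) hDp
          · intro y
            calc ∑ n ∈ range y, ind (∃ j, p ∣ n + t j) ≤ ∑ n ∈ range y, ∑ j, ind (p ∣ n + t j) :=
                  sum_le_sum fun n _ => ind_exists _
              _ = ∑ j, ∑ n ∈ range y, ind (p ∣ n + t j) := sum_comm
              _ ≤ ∑ _j : Fin s, ((y : ℝ) / p + 1) := sum_le_sum fun j _ => count_shift p y (t j) hpp.pos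
              _ = s * ((y : ℝ) / p + 1) := by rw [sum_const, card_univ, Fintype.card_fin, nsmul_eq_mul]
              _ ≤ κ * ((y : ℝ) / p + 1) :=
                  mul_le_mul_of_nonneg_right (by rw [hκ]; linarith) (by positivity)
        have g4 : 16 * κ / (p : ℝ) ≤ 16 * κ / 2 ^ i := div_le_div_of_nonneg_left (by positivity) h2i hp1'
        have g5 : (6 + 8 * κ) * (p : ℝ) / x ≤ ((6 + 8 * κ) * 2 ^ (i + 1)) / x := by
          apply div_le_div_of_nonneg_right _ hxr.le
          exact mul_le_mul_of_nonneg_left hp2' (by positivity)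
        set u1 := av2 (kp x p) x
        set u2 := av2 (kp' x p) x
        set u3 := (p : ℝ) ^ 2 * av2 (mu2 p (kp' x p)) x
        set u4 := (p : ℝ) ^ 2 * av2 (mu2 p (kp x p)) x
        set u5 := av2 (k1 (x / p)) (x / p)
        have t1 := abs_sub_le u1 u2 u5
        have t2 := abs_sub_le u2 u3 u5
        have t3 := abs_sub_le u3 u4 u5
        have t4 : |u3 - u4| = |u4 - u3| := abs_sub_comm _ _
        have t5 : 4 * (κ * (d p + δp p x)) = 4 * κ * d p + 4 * κ * δp p x := by ring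
        linarith
      refine (sum_le_sum fun p hp => mul_le_mul_of_nonneg_left (h3 p hp) (QDw_nonneg i p hp)).trans ?_
      simp only [mul_add, sum_add_distrib, ← sum_mul] at hdec ⊢
      have e1 : (∑ p ∈ QD i (i + 1), Real.log p / 2 ^ i) * (5 * (κ * η)) ≤ 3 * (5 * (κ * η)) :=
        mul_le_mul_of_nonneg_right hW3 (by positivity)
      have e2 : (∑ p ∈ QD i (i + 1), Real.log p / 2 ^ i) * (16 * κ / 2 ^ i) ≤ 3 * (16 * κ / 2 ^ i) :=
        mul_le_mul_of_nonneg_right hW3 (by positivity)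
      have e5 : ∑ p ∈ QD i (i + 1), Real.log p / 2 ^ i * (4 * κ * d p) =
          4 * κ * ∑ p ∈ QD i (i + 1), Real.log p / 2 ^ i * d p := by
        rw [mul_sum]
        apply sum_congr rfl
        intro p _
        ring
      have e6 : ∑ p ∈ QD i (i + 1), Real.log p / 2 ^ i * (4 * κ * δp p x) =
          4 * κ * ∑ p ∈ QD i (i + 1), Real.log p / 2 ^ i * δp p x := by
        rw [mul_sum]
        apply sum_congr rfl
        intro p _
        ring
      rw [e5, e6]
      have e7 : 4 * κ * ∑ p ∈ QD i (i + 1), Real.log p / 2 ^ i * δp p x ≤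
          4 * κ * ((δ + 9 * φ i x) + 9 * η + 6 / 2 ^ i + 12 * 2 ^ (i + 1) / x) :=
        mul_le_mul_of_nonneg_left (hdm x hx hx0) (by positivity)
      have e3 : (∑ p ∈ QD i (i + 1), Real.log p / 2 ^ i) * ((6 + 8 * κ) * 2 ^ (i + 1) / x) ≤
          3 * ((6 + 8 * κ) * 2 ^ (i + 1) / x) :=
        mul_le_mul_of_nonneg_right hW3 (by positivity)
      have e8 : 51 * (κ * η) + 72 * κ / 2 ^ i + 4 * κ * (∑ p ∈ QD i (i + 1), Real.log p / 2 ^ i * d p) +
          (4 * κ + 3) * δ + (36 * κ + 27) * φ i x + ((72 * κ + 18) * 2 ^ (i + 1)) / x =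
          3 * (δ + 9 * φ i x) + 3 * (5 * (κ * η)) + 3 * (16 * κ / 2 ^ i) +
          4 * κ * (∑ p ∈ QD i (i + 1), Real.log p / 2 ^ i * d p) +
          4 * κ * ((δ + 9 * φ i x) + 9 * η + 6 / 2 ^ i + 12 * 2 ^ (i + 1) / x) +
          3 * ((6 + 8 * κ) * 2 ^ (i + 1) / x) := by
        field_simp
        ring
      rw [e8]
      linarith
    -- the mean
    have hbs : Bd (fun x => ∑ p ∈ QD i (i + 1), Real.log p / 2 ^ i * |av2 (kp x p) x - av2 (k1 (x / p)) (x / p)|) :=
      Pool.Agent.TH112.BL.Bd.sum _ fun p _ => Pool.Agent.TH112.BL.Bd.cmul _ (hb1 p)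
    have hmean : μ.m (fun x => ∑ p ∈ QD i (i + 1), Real.log p / 2 ^ i *
        |av2 (kp x p) x - av2 (k1 (x / p)) (x / p)| - (36 * κ + 27) * φ i x) ≤
        (51 * (κ * η) + 72 * κ / 2 ^ i + 4 * κ * ∑ p ∈ QD i (i + 1), Real.log p / 2 ^ i * d p) + (4 * κ + 3) * δ := by
      apply lm_small_le' μ (K := ((72 * κ + 18) * 2 ^ (i + 1)))
        (hbs.sub' (Pool.Agent.TH112.BL.Bd.cmul (36 * κ + 27) (hφb i))) (by positivity) _ x1
      intro x hx hx0
      have := hpt x hx hx0
      linarith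
    rw [μ.sub hbs (Pool.Agent.TH112.BL.Bd.cmul (36 * κ + 27) (hφb i)), μ.smul _ _ (hφb i)] at hmean
    have h4 : ∑ p ∈ QD i (i + 1), Real.log p / 2 ^ i *
        |(nux μ).m (PG T3 (g3 v' G') (fun j => p * t j)) - (nux μ).m (PG T3 (g3 v G) t)| ≤
        μ.m (fun x => ∑ p ∈ QD i (i + 1), Real.log p / 2 ^ i * |av2 (kp x p) x - av2 (k1 (x / p)) (x / p)|) := by
      rw [μ.sum _ (fun p _ => Pool.Agent.TH112.BL.Bd.cmul _ (hb1 p))]
      apply sum_le_sum
      intro p hp
      have hpp : p.Prime := (mem_filter.1 hp).2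
      rw [μ.smul _ _ (hb1 p)]
      apply mul_le_mul_of_nonneg_left _ (QDw_nonneg i p hp)
      have e1 : (nux μ).m (PG T3 (g3 v' G') (fun j => p * t j)) = μ.m (fun x => av2 (kp x p) x) := by
        show μ.m (av3 _) = _
        congr 1
        funext x
        exact av3_PG v' G' _ x
      have e2 : (nux μ).m (PG T3 (g3 v G) t) = μ.m (fun x => av2 (k1 x) x) := by
        show μ.m (av3 _) = _
        congr 1
        funext x
        exact av3_PG v G _ x
      rw [e1, e2, ← scale_dil μ p hpp.one_lt.le hb0, ← μ.sub (hbp p) (hb0.comp (fun x => x / p))]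
      exact μ.abs_le ((hbp p).sub' (hb0.comp (fun x => x / p)))
    refine h4.trans ?_
    have h5 : 51 * (κ * η) = ε / 4 := by
      rw [hη]; field_simp; ring
    have h6 : 72 * κ / 2 ^ i ≤ ε / 4 := by
      rw [div_le_iff₀ hε] at hi2'
      rw [div_le_iff₀ h2i]
      linarith
    have h7 : (4 * κ + 3) * δ = ε / 4 := by
      rw [hδ]; field_simp
    linarith
  -- all scales
  have hm0 : ∀ i, 0 ≤ μ.m (φ i) := fun i => μ.nonneg _ (hφb i) (hφ0 i)
  calc ∑ i ∈ Icc (max i0 i2) J, (1 / (i : ℝ)) * ∑ p ∈ QD i (i + 1), Real.log p / 2 ^ i *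
        |(nux μ).m (PG T3 (g3 v' G') (fun j => p * t j)) - (nux μ).m (PG T3 (g3 v G) t)|
      ≤ ∑ i ∈ Icc (max i0 i2) J, (1 / (i : ℝ)) * (ε + (36 * κ + 27) * μ.m (φ i) +
          4 * κ * ∑ p ∈ QD i (i + 1), Real.log p / 2 ^ i * d p) :=
        sum_le_sum fun i hi => mul_le_mul_of_nonneg_left (key i hi) (by positivity)
    _ = (36 * κ + 27) * (∑ i ∈ Icc (max i0 i2) J, (1 / (i : ℝ)) * μ.m (φ i)) +
          4 * κ * (∑ i ∈ Icc (max i0 i2) J, (1 / (i : ℝ)) * ∑ p ∈ QD i (i + 1), Real.log p / 2 ^ i * d p) +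
          ε * ∑ i ∈ Icc (max i0 i2) J, 1 / (i : ℝ) := by
        rw [mul_sum, mul_sum (s := Icc (max i0 i2) J) (a := 4 * κ), mul_sum (s := Icc (max i0 i2) J) (a := ε),
          ← sum_add_distrib, ← sum_add_distrib]
        apply sum_congr rfl
        intro i _
        ring
    _ ≤ ((36 * κ + 27) * C + 4 * κ * |C₂|) + ε * ∑ i ∈ Icc (max i0 i2) J, 1 / (i : ℝ) := by
        have h1 : ∑ i ∈ Icc (max i0 i2) J, (1 / (i : ℝ)) * μ.m (φ i) ≤
            ∑ i ∈ Icc i0 J, (1 / (i : ℝ)) * μ.m (φ i) := by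
          apply sum_le_sum_of_subset_of_nonneg
          · exact Icc_subset_Icc_left (le_max_left _ _)
          · intro i _ _
            exact mul_nonneg (by positivity) (hm0 i)
        have h2 : 4 * κ * (∑ i ∈ Icc (max i0 i2) J, (1 / (i : ℝ)) *
            ∑ p ∈ QD i (i + 1), Real.log p / 2 ^ i * d p) ≤ 4 * κ * |C₂| :=
          mul_le_mul_of_nonneg_left ((hC₂ (max i0 i2) J).trans (le_abs_self _)) (by positivity)
        have h3 : (36 * κ + 27) * (∑ i ∈ Icc (max i0 i2) J, (1 / (i : ℝ)) * μ.m (φ i)) ≤ (36 * κ + 27) * C :=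
          mul_le_mul_of_nonneg_left (h1.trans hφC) (by positivity)
        linarith

end Pool.Agent.Y956.CQ
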